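import Mathlib

/-!
# Sums of powers of cosines over the residue classes of an odd number
-/

set_option linter.unusedSectionVars false
set_option linter.unusedVariables false

namespace Pool.Agent.TH170.MF

open Real Finset

theorem cos_le_exp {x : ℝ} (h0 : 0 ≤ x) (h1 : x ≤ π / 2) : cos x ≤ exp (-(x ^ 2 / 2)) := by
  rcases eq_or_lt_of_le h1 with h2 | h2
  · rw [h2, cos_pi_div_two]
    exact (exp_pos _).le
  have hpos : ∀ y ∈ Set.Icc 0 x, 0 < cos y := fun y hy =>
    cos_pos_of_mem_Ioo ⟨by linarith [hy.1, pi_pos], by linarith [hy.2]⟩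
  have hanti : AntitoneOn (fun y => y ^ 2 / 2 + log (cos y)) (Set.Icc 0 x) := by
    refine antitoneOn_of_deriv_nonpos (convex_Icc 0 x) ?_ ?_ ?_
    · refine ContinuousOn.add (by fun_prop) ?_
      exact ContinuousOn.log (by fun_prop) (fun y hy => (hpos y hy).ne')
    · intro y hy
      rw [interior_Icc] at hy
      have hy' : y ∈ Set.Icc 0 x := Set.Ioo_subset_Icc_self hy
      have : DifferentiableAt ℝ (fun y => y ^ 2 / 2 + log (cos y)) y :=
        DifferentiableAt.add (by fun_prop) (DifferentiableAt.log (by fun_prop) (hpos y hy').ne')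
      exact this.differentiableWithinAt
    · intro y hy
      rw [interior_Icc] at hy
      have hy' : y ∈ Set.Icc 0 x := Set.Ioo_subset_Icc_self hy
      have h3 : HasDerivAt (fun y => y ^ 2 / 2 + log (cos y)) (y - tan y) y := by
        have h4 : HasDerivAt (fun y : ℝ => y ^ 2 / 2) y y := by
          refine ((hasDerivAt_pow 2 y).div_const 2).congr_deriv ?_
          push_cast
          ring
        have h5 : HasDerivAt (fun y => log (cos y)) (-sin y / cos y) y :=
          (hasDerivAt_cos y).log (hpos y hy').ne'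
        have h6 := h4.add h5
        have h7 : y - tan y = y + -sin y / cos y := by rw [tan_eq_sin_div_cos]; ring
        rw [h7]
        exact h6
      rw [h3.deriv]
      have h4 : y ≤ tan y := le_tan hy.1.le (lt_trans hy.2 h2)
      linarith
  have h3 := hanti (Set.left_mem_Icc.2 h0) (Set.right_mem_Icc.2 h0) h0
  simp only [cos_zero, log_one] at h3
  have h4 : log (cos x) ≤ -(x ^ 2 / 2) := by
    have : (0 : ℝ) ^ 2 / 2 + 0 = 0 := by norm_num
    linarith
  calc cos x = exp (log (cos x)) := (exp_log (hpos x (Set.right_mem_Icc.2 h0))).symm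
    _ ≤ _ := exp_le_exp.2 h4

theorem abs_cos_le_exp {x : ℝ} (h : |x| ≤ π / 2) : |cos x| ≤ exp (-(x ^ 2 / 2)) := by
  rw [← cos_abs x, ← sq_abs x, abs_of_nonneg (cos_nonneg_of_mem_Icc
    ⟨by linarith [abs_nonneg x, pi_pos], h⟩)]
  exact cos_le_exp (abs_nonneg x) h

/-- The sum of the values of a Gauss function at the positive integers. -/
theorem sum_gauss_le {b : ℝ} (hb : 0 < b) (n : ℕ) :
    ∑ i ∈ range n, exp (-b * ((i + 1 : ℕ) : ℝ) ^ 2) ≤ √(π / b) / 2 := by
  have hanti : AntitoneOn (fun x : ℝ => exp (-b * x ^ 2)) (Set.Icc (0 : ℝ) (0 + n)) := by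
    intro x hx y hy hxy
    apply exp_le_exp.2
    have : x ^ 2 ≤ y ^ 2 := pow_le_pow_left₀ hx.1 hxy 2
    nlinarith
  have h1 := hanti.sum_le_integral
  have h2 : ∑ i ∈ range n, exp (-b * ((i + 1 : ℕ) : ℝ) ^ 2) =
      ∑ i ∈ range n, exp (-b * (0 + ((i + 1 : ℕ) : ℝ)) ^ 2) := by
    simp only [zero_add]
  rw [h2]
  refine h1.trans ?_
  rw [← integral_gaussian_Ioi b, intervalIntegral.integral_of_le (by positivity)]
  refine MeasureTheory.setIntegral_mono_set ?_ ?_ ?_
  · exact (integrable_exp_neg_mul_sq hb).integrableOn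
  · exact Filter.Eventually.of_forall (fun x => (exp_pos _).le)
  · exact (Set.Ioc_subset_Ioi_self).eventuallyLE

end Pool.Agent.TH170.MF
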