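import Mathlib
import Pool.Agent.TH170.MF.Cos

/-!
# The absolute values of the cosines of residue classes
-/

set_option linter.unusedSectionVars false
set_option linter.unusedVariables false

namespace Pool.Agent.TH170.MF

open Real Finset

/-- Half the absolute value of `ψ t + ψ (-t)`, for the standard character `ψ` of `ℤ / N`. -/
noncomputable def cw (N : ℕ) [NeZero N] (t : ZMod N) : ℝ :=
  ‖(ZMod.stdAddChar t : ℂ) + ZMod.stdAddChar (-t)‖ / 2

variable (N : ℕ) [NeZero N]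

theorem cw_neg (t : ZMod N) : cw N (-t) = cw N t := by
  rw [cw, cw, neg_neg, add_comm]

theorem cw_nonneg (t : ZMod N) : 0 ≤ cw N t := by
  rw [cw]
  positivity

theorem cw_half {u : ZMod N} (hu : 2 * u = 1) (s : ZMod N) :
    cw N (u * s) = |cos (π * s.valMinAbs / N)| := by
  have hN : (N : ℝ) ≠ 0 := Nat.cast_ne_zero.2 (NeZero.ne N)
  have hNC : (N : ℂ) ≠ 0 := Nat.cast_ne_zero.2 (NeZero.ne N)
  set z : ℂ := ZMod.stdAddChar (u * s) with hz
  set j : ℤ := s.valMinAbs with hj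
  set w : ℂ := Complex.exp ((π * j / N : ℝ) * Complex.I) with hw
  have h1 : (ZMod.stdAddChar (-(u * s)) : ℂ) = z⁻¹ := by
    rw [AddChar.map_neg_eq_inv]
  have h2 : z ^ 2 = w ^ 2 := by
    have h3 : z ^ 2 = ZMod.stdAddChar (2 * (u * s)) := by
      rw [pow_two, hz, ← AddChar.map_add_eq_mul, two_mul]
    have h4 : 2 * (u * s) = ((j : ℤ) : ZMod N) := by
      rw [← mul_assoc, hu, one_mul, hj, ZMod.coe_valMinAbs]
    rw [h3, h4, ZMod.stdAddChar_coe, hw, ← Complex.exp_nat_mul]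
    congr 1
    push_cast
    field_simp
  have h5 : w + w⁻¹ = 2 * (cos (π * j / N) : ℝ) := by
    rw [hw, ← Complex.exp_neg, Complex.ofReal_cos, Complex.cos]
    ring_nf
  have h6 : ‖z + z⁻¹‖ = ‖w + w⁻¹‖ := by
    rcases sq_eq_sq_iff_eq_or_eq_neg.1 h2 with h7 | h7
    · rw [h7]
    · rw [h7, inv_neg, ← neg_add, norm_neg]
  rw [cw, ← hz, h1, h6, h5, norm_mul, Complex.norm_real, Complex.norm_two, Real.norm_eq_abs]
  ring

theorem abs_valMinAbs_le (s : ZMod N) : |π * (s.valMinAbs : ℝ) / N| ≤ π / 2 := by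
  have hN : (0 : ℝ) < N := Nat.cast_pos.2 (NeZero.pos N)
  have h1 : s.valMinAbs.natAbs ≤ N / 2 := ZMod.natAbs_valMinAbs_le s
  have h2 : (s.valMinAbs.natAbs : ℝ) ≤ N / 2 := by
    have h3 : 2 * s.valMinAbs.natAbs ≤ N := by omega
    have h4 : ((2 * s.valMinAbs.natAbs : ℕ) : ℝ) ≤ N := Nat.cast_le.2 h3
    push_cast at h4
    linarith
  have h5 : |(s.valMinAbs : ℝ)| = (s.valMinAbs.natAbs : ℝ) := by
    rw [Nat.cast_natAbs, Int.cast_abs]
  rw [abs_div, abs_mul, abs_of_pos pi_pos, h5, Nat.abs_cast, div_le_iff₀ hN]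
  nlinarith [pi_pos]

theorem sum_Icc_int (n : ℕ) (F : ℤ → ℝ) :
    ∑ j ∈ Icc (-(n : ℤ)) n, F j =
      F 0 + ∑ i ∈ range n, (F ((i : ℤ) + 1) + F (-((i : ℤ) + 1))) := by
  induction n with
  | zero => simp
  | succ n ih =>
    have h1 : Icc (-((n + 1 : ℕ) : ℤ)) ((n + 1 : ℕ) : ℤ) =
        insert ((n : ℤ) + 1) (insert (-((n : ℤ) + 1)) (Icc (-(n : ℤ)) n)) := by
      ext j
      simp only [mem_Icc, mem_insert]
      push_cast
      omega
    rw [h1, sum_insert, sum_insert, ih, sum_range_succ]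
    · ring
    · simp only [mem_Icc]
      omega
    · simp only [mem_insert, mem_Icc]
      omega

theorem sum_int_le (n : ℕ) {F : ℤ → ℝ} (hF : ∀ j, 0 ≤ F j) (s : Finset ℤ)
    (hs : ∀ j ∈ s, j.natAbs ≤ n) :
    ∑ j ∈ s, F j ≤ F 0 + ∑ i ∈ range n, (F ((i : ℤ) + 1) + F (-((i : ℤ) + 1))) := by
  rw [← sum_Icc_int]
  refine sum_le_sum_of_subset_of_nonneg ?_ (fun j _ _ => hF j)
  intro j hj
  rw [mem_Icc]
  have := hs j hj
  omega

/-- The sum of the powers of the cosines. -/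
theorem sum_cw_le (hodd : Odd N) {a : ℝ} (ha : 0 < a) :
    ∑ t : ZMod N, cw N t ^ a ≤ 1 + N * √(2 / (π * a)) := by
  classical
  have hN : (0 : ℝ) < N := Nat.cast_pos.2 (NeZero.pos N)
  obtain ⟨u, hu⟩ : ∃ u : ZMod N, 2 * u = 1 := by
    obtain ⟨k, hk⟩ := hodd
    refine ⟨-(k : ZMod N), ?_⟩
    have h1 : ((2 * k + 1 : ℕ) : ZMod N) = 0 := by
      rw [← hk, ZMod.natCast_self]
    push_cast at h1
    linear_combination -h1
  have hu' : u * 2 = 1 := by rw [mul_comm, hu]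
  -- reindexing
  have h1 : ∑ t : ZMod N, cw N t ^ a = ∑ s : ZMod N, cw N (u * s) ^ a := by
    symm
    refine Function.Bijective.sum_comp ⟨?_, ?_⟩ (fun t => cw N t ^ a)
    · intro s s' h
      have h2 : 2 * (u * s) = 2 * (u * s') := by
        rw [h]
      rwa [← mul_assoc, ← mul_assoc, hu, one_mul, one_mul] at h2
    · intro t
      exact ⟨2 * t, by rw [← mul_assoc, hu', one_mul]⟩
  set b : ℝ := a * π ^ 2 / (2 * N ^ 2) with hb
  have hb0 : 0 < b := by positivity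
  let F : ℤ → ℝ := fun j => exp (-b * (j : ℝ) ^ 2)
  have h2 : ∀ s : ZMod N, cw N (u * s) ^ a ≤ F s.valMinAbs := by
    intro s
    rw [cw_half N hu]
    have h3 := abs_cos_le_exp (abs_valMinAbs_le N s)
    refine (rpow_le_rpow (abs_nonneg _) h3 ha.le).trans ?_
    rw [← exp_mul]
    apply exp_le_exp.2
    rw [hb]
    apply le_of_eq
    field_simp
  have h3 : ∑ s : ZMod N, F s.valMinAbs ≤
      F 0 + ∑ i ∈ range (N / 2), (F ((i : ℤ) + 1) + F (-((i : ℤ) + 1))) := by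
    rw [← sum_image (f := F) (g := fun s : ZMod N => s.valMinAbs)
      (fun s _ s' _ h => ZMod.injective_valMinAbs h)]
    refine sum_int_le (N / 2) (fun j => (exp_pos _).le) _ ?_
    intro j hj
    obtain ⟨s, -, rfl⟩ := mem_image.1 hj
    exact ZMod.natAbs_valMinAbs_le s
  have h4 : ∀ i : ℕ, F ((i : ℤ) + 1) + F (-((i : ℤ) + 1)) =
      2 * exp (-b * ((i + 1 : ℕ) : ℝ) ^ 2) := by
    intro i
    simp only [F]
    push_cast
    rw [neg_sq]
    ring
  have h5 : F 0 = 1 := by simp [F]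
  rw [h1]
  refine (sum_le_sum fun s _ => h2 s).trans (h3.trans ?_)
  rw [h5, sum_congr rfl fun i _ => h4 i, ← mul_sum]
  have h6 := sum_gauss_le hb0 (N / 2)
  have h7 : √(π / b) = N * √(2 / (π * a)) := by
    have h8 : π / b = N ^ 2 * (2 / (π * a)) := by
      rw [hb]
      field_simp
    rw [h8, sqrt_mul (by positivity), sqrt_sq hN.le]
  rw [h7] at h6
  linarith

end Pool.Agent.TH170.MF
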