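import Mathlib
import Pool.Agent.TH170.MF.Weight

/-!
# The arithmetic-geometric mean over the translates of a base
-/

set_option linter.unusedSectionVars false
set_option linter.unusedVariables false

namespace Pool.Agent.TH170.MF

open Real Finset

variable {G X : Type*} [Group G] [Fintype G] [MulAction G X] [Fintype X] [DecidableEq X]
  [MulAction.IsPretransitive G X]

theorem card_fiber (x₀ x : X) : (univ.filter (fun γ : G => γ • x₀ = x)).card * Fintype.card X =
    Fintype.card G := by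
  classical
  have h1 : ∀ y : X, (univ.filter (fun γ : G => γ • x₀ = y)).card =
      (univ.filter (fun γ : G => γ • x₀ = x)).card := by
    intro y
    obtain ⟨δ, hδ⟩ := MulAction.exists_smul_eq G x y
    refine card_bij' (fun γ _ => δ⁻¹ * γ) (fun γ _ => δ * γ) ?_ ?_ ?_ ?_
    · intro γ hγ
      rw [mem_filter] at hγ ⊢
      refine ⟨mem_univ _, ?_⟩
      rw [mul_smul, hγ.2, ← hδ, inv_smul_smul]
    · intro γ hγ
      rw [mem_filter] at hγ ⊢
      refine ⟨mem_univ _, ?_⟩
      rw [mul_smul, hγ.2, hδ]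
    · intro γ _
      exact mul_inv_cancel_left δ γ
    · intro γ _
      exact inv_mul_cancel_left δ γ
  have h2 : Fintype.card G = ∑ y : X, (univ.filter (fun γ : G => γ • x₀ = y)).card := by
    rw [← card_univ]
    exact card_eq_sum_card_fiberwise (fun γ _ => mem_univ _)
  rw [h2, sum_congr rfl fun y _ => h1 y, sum_const, card_univ, smul_eq_mul, mul_comm]

theorem prod_orbit (F : X → ℝ) (x₀ : X) (m : ℕ) (hm : m * Fintype.card X = Fintype.card G) :
    ∏ γ : G, F (γ • x₀) = (∏ x, F x) ^ m := by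
  classical
  have hX : 0 < Fintype.card X := Fintype.card_pos_iff.2 ⟨x₀⟩
  rw [← prod_fiberwise (s := univ) (g := fun γ : G => γ • x₀) (f := fun γ => F (γ • x₀)),
    ← prod_pow]
  refine prod_congr rfl fun x _ => ?_
  have h1 : (univ.filter (fun γ : G => γ • x₀ = x)).card = m :=
    Nat.eq_of_mul_eq_mul_right hX ((card_fiber x₀ x).trans hm.symm)
  rw [← h1, ← prod_const]
  exact prod_congr rfl fun γ hγ => by rw [(mem_filter.1 hγ).2]

theorem prod_transversal {c : X → X} (hcc : ∀ x, c (c x) = x) {T : Finset X}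
    (hT : ∀ x, x ∈ T ↔ c x ∉ T) (F : X → ℝ) : ∏ x, F x = ∏ x ∈ T, (F x * F (c x)) := by
  classical
  rw [prod_mul_distrib, ← prod_mul_prod_compl T]
  congr 1
  refine prod_bij' (fun x _ => c x) (fun x _ => c x) ?_ ?_ ?_ ?_ ?_
  · intro x hx
    rw [hT, hcc]
    exact mem_compl.1 hx
  · intro x hx
    rw [mem_compl]
    exact (hT x).1 hx
  · intro x _
    exact hcc x
  · intro x _
    exact hcc x
  · intro x _
    rw [hcc]

theorem sum_transversal {c : X → X} (hcc : ∀ x, c (c x) = x) {T : Finset X}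
    (hT : ∀ x, x ∈ T ↔ c x ∉ T) {M : Type*} [AddCommMonoid M] (F : X → M) :
    ∑ x, F x = ∑ x ∈ T, (F x + F (c x)) := by
  classical
  rw [sum_add_distrib, ← sum_add_sum_compl T]
  congr 1
  refine sum_bij' (fun x _ => c x) (fun x _ => c x) ?_ ?_ ?_ ?_ ?_
  · intro x hx
    rw [hT, hcc]
    exact mem_compl.1 hx
  · intro x hx
    rw [mem_compl]
    exact (hT x).1 hx
  · intro x _
    exact hcc x
  · intro x _
    exact hcc x
  · intro x _
    rw [hcc]

theorem exp_identity {T d m : ℝ} (hT : T ≠ 0) (hd : d ≠ 0) (hm : m ≠ 0) :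
    T / d * (1 / (m * (2 * T))) = (2 * m * d)⁻¹ := by
  field_simp

variable (N : ℕ) [NeZero N]

theorem sum_prod_le {c : X → X} (hcc : ∀ x, c (c x) = x) {T : Finset X}
    (hT : ∀ x, x ∈ T ↔ c x ∉ T) {κ : Type*} [Fintype κ] [DecidableEq κ] [Nonempty κ] (a : κ → X)
    (W : κ → X → ZMod N) (hodd : ∀ k x, W k (c x) = - W k x)
    (hone : ∀ k l, W k (a l) = if k = l then 1 else 0)
    (hinv : ∀ (γ : G) k x, W k (γ • x) = ∑ l, W k (γ • a l) * W l x) :
    ∑ v : κ → ZMod N, ∏ x ∈ T, cw N (∑ k, v k * W k x) ≤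
      (∑ t : ZMod N, cw N t ^ ((T.card : ℝ) / Fintype.card κ)) ^ Fintype.card κ := by
  classical
  obtain ⟨k₀⟩ := ‹Nonempty κ›
  set x₀ : X := a k₀ with hx₀
  set m : ℕ := (univ.filter (fun γ : G => γ • x₀ = x₀)).card with hm'
  have hm : m * Fintype.card X = Fintype.card G := card_fiber x₀ x₀
  have hG : 0 < Fintype.card G := Fintype.card_pos
  have hm0 : 0 < m := by
    rcases Nat.eq_zero_or_pos m with h | h
    · rw [h, zero_mul] at hm
      omega
    · exact h
  have hcardX : Fintype.card X = 2 * T.card := by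
    have h1 := sum_transversal hcc hT (fun _ : X => 1)
    rw [sum_const, card_univ, smul_eq_mul, mul_one, sum_const, smul_eq_mul] at h1
    rw [h1]
    ring
  have hT0 : 0 < T.card := by
    have : 0 < Fintype.card X := Fintype.card_pos_iff.2 ⟨x₀⟩
    omega
  set d : ℕ := Fintype.card κ with hd
  have hd0 : 0 < d := Fintype.card_pos_iff.2 ⟨k₀⟩
  set q : ℝ := (T.card : ℝ) / d with hq
  -- the value at one vector
  have hone' : ∀ v : κ → ZMod N, ∏ x ∈ T, cw N (∑ k, v k * W k x) ≤
      ∑ γ : G, (1 / (Fintype.card G : ℝ)) * ∏ k, cw N (∑ l, v l * W l (γ • a k)) ^ q := by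
    intro v
    set f : X → ℝ := fun x => cw N (∑ k, v k * W k x) with hf
    have hf0 : ∀ x, 0 ≤ f x := fun x => cw_nonneg N _
    have hfc : ∀ x, f (c x) = f x := by
      intro x
      simp only [hf]
      rw [← cw_neg]
      congr 1
      rw [← sum_neg_distrib]
      refine sum_congr rfl fun k _ => ?_
      rw [hodd]
      ring
    set P : ℝ := ∏ x ∈ T, f x with hP
    have hP0 : 0 ≤ P := prod_nonneg fun x _ => hf0 x
    have h1 : ∏ x, f x = P ^ 2 := by
      rw [prod_transversal hcc hT, hP, ← prod_pow]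
      exact prod_congr rfl fun x _ => by rw [hfc, pow_two]
    have h2 : ∏ γ : G, ∏ k, f (γ • a k) = P ^ (2 * m * d) := by
      rw [prod_comm]
      rw [prod_congr rfl fun k _ => prod_orbit f (a k) m hm, prod_const, card_univ, h1]
      rw [← pow_mul, ← pow_mul, mul_assoc]
    have h3 := geom_mean_le_arith_mean_weighted (univ : Finset G)
      (fun _ => 1 / (Fintype.card G : ℝ)) (fun γ => ∏ k, f (γ • a k) ^ q)
      (fun _ _ => by positivity)
      (by rw [sum_const, card_univ, nsmul_eq_mul]; field_simp)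
      (fun γ _ => prod_nonneg fun k _ => rpow_nonneg (hf0 _) _)
    refine le_trans (le_of_eq ?_) h3
    have h4 : ∀ γ : G, (∏ k, f (γ • a k) ^ q) ^ (1 / (Fintype.card G : ℝ)) =
        (∏ k, f (γ • a k)) ^ (q * (1 / (Fintype.card G : ℝ))) := by
      intro γ
      rw [Real.finsetProd_rpow _ _ (fun k _ => hf0 _),
        ← rpow_mul (prod_nonneg fun k _ => hf0 _)]
    rw [prod_congr rfl fun γ _ => h4 γ, Real.finsetProd_rpow _ _
      (fun γ _ => prod_nonneg fun k _ => hf0 _), h2]
    have h5 : q * (1 / (Fintype.card G : ℝ)) = ((2 * m * d : ℕ) : ℝ)⁻¹ := by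
      have h6 := exp_identity (T := (T.card : ℝ)) (d := (d : ℝ)) (m := (m : ℝ))
        (Nat.cast_ne_zero.2 hT0.ne') (Nat.cast_ne_zero.2 hd0.ne') (Nat.cast_ne_zero.2 hm0.ne')
      have h7 : (Fintype.card G : ℝ) = m * (2 * T.card) := by
        rw [← hm, hcardX]
        push_cast
        rfl
      rw [h7, h6]
      push_cast
      rfl
    have h8 : 2 * m * d ≠ 0 := mul_ne_zero (mul_ne_zero two_ne_zero hm0.ne') hd0.ne'
    rw [h5, Real.pow_rpow_inv_natCast hP0 h8]
  refine (sum_le_sum fun v _ => hone' v).trans ?_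
  rw [sum_comm]
  have h1 : ∀ γ : G, ∑ v : κ → ZMod N, (1 / (Fintype.card G : ℝ)) *
      ∏ k, cw N (∑ l, v l * W l (γ • a k)) ^ q =
      (1 / (Fintype.card G : ℝ)) * (∑ t : ZMod N, cw N t ^ q) ^ d := by
    intro γ
    rw [← mul_sum]
    congr 1
    let A : G → (κ → ZMod N) → (κ → ZMod N) := fun γ v k => ∑ l, v l * W l (γ • a k)
    have hA : ∀ v, A γ⁻¹ (A γ v) = v := by
      intro v
      funext k
      simp only [A, sum_mul]
      rw [sum_comm]
      have h2 : ∀ l, ∑ l', v l * W l (γ • a l') * W l' (γ⁻¹ • a k) =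
          v l * (if l = k then 1 else 0) := by
        intro l
        have h3 := hinv γ l (γ⁻¹ • a k)
        rw [smul_inv_smul, hone] at h3
        rw [h3, mul_sum]
        exact sum_congr rfl fun l' _ => by ring
      rw [sum_congr rfl fun l _ => h2 l]
      simp
    have hbij : Function.Bijective (A γ) := by
      rw [← Finite.injective_iff_bijective]
      exact Function.LeftInverse.injective hA
    have h2 : ∑ v : κ → ZMod N, ∏ k, cw N (∑ l, v l * W l (γ • a k)) ^ q =
        ∑ v : κ → ZMod N, (fun u : κ → ZMod N => ∏ k, cw N (u k) ^ q) (A γ v) := rfl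
    rw [h2, Function.Bijective.sum_comp hbij (fun u : κ → ZMod N => ∏ k, cw N (u k) ^ q)]
    rw [← Fintype.piFinset_univ, ← prod_univ_sum (t := fun _ : κ => (univ : Finset (ZMod N)))
      (f := fun _ t => cw N t ^ q), prod_const, card_univ]
  rw [sum_congr rfl fun γ _ => h1 γ, sum_const, card_univ, nsmul_eq_mul, ← mul_assoc]
  rw [mul_one_div_cancel (by positivity), one_mul]

end Pool.Agent.TH170.MF
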