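import Mathlib

/-!
# Coordinates for spaces of functions
-/

set_option linter.unusedSectionVars false
set_option linter.unusedVariables false

namespace Pool.Agent.TH170.MF

open Finset Module

/-- A space of functions on a finite set has coordinates given by the values at some points. -/
theorem exists_base {X : Type*} [Finite X] (S : Submodule ℚ (X → ℚ)) :
    ∃ (a : Fin (finrank ℚ S) → X) (e : Fin (finrank ℚ S) → X → ℚ), (∀ k, e k ∈ S) ∧
      (∀ s ∈ S, ∀ x, s x = ∑ k, s (a k) * e k x) ∧
      ∀ k l, e k (a l) = if k = l then 1 else 0 := by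
  classical
  let ev : X → Module.Dual ℚ S := fun x => (LinearMap.proj x).comp S.subtype
  obtain ⟨κ, a, ha, hspan, hli⟩ := exists_linearIndependent' ℚ ev
  have hfin : Finite κ := hli.finite
  have hfint : Fintype κ := Fintype.ofFinite κ
  let R : S →ₗ[ℚ] (κ → ℚ) := LinearMap.pi (fun k => ev (a k))
  have hR : Function.Injective R := by
    rw [← LinearMap.ker_eq_bot, LinearMap.ker_eq_bot']
    intro s hs
    have h1 : ∀ f ∈ Submodule.span ℚ (Set.range ev), f s = 0 := by
      intro f hf
      rw [← hspan] at hf
      induction hf using Submodule.span_induction with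
      | mem f hf =>
        obtain ⟨k, rfl⟩ := hf
        exact congrFun hs k
      | zero => rfl
      | add f g _ _ h1 h2 => rw [LinearMap.add_apply, h1, h2, add_zero]
      | smul q f _ h1 => rw [LinearMap.smul_apply, h1, smul_zero]
    ext x
    exact h1 (ev x) (Submodule.subset_span ⟨x, rfl⟩)
  have hcard : Fintype.card κ = finrank ℚ S := by
    apply le_antisymm
    · have h1 := hli.fintype_card_le_finrank
      rwa [Subspace.dual_finrank_eq] at h1
    · have h1 := LinearMap.finrank_le_finrank_of_injective hR
      rwa [Module.finrank_fintype_fun_eq_card] at h1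
  have hRs : Function.Surjective R := by
    rw [← LinearMap.injective_iff_surjective_of_finrank_eq_finrank]
    · exact hR
    · rw [Module.finrank_fintype_fun_eq_card, hcard]
  let q : Fin (finrank ℚ S) ≃ κ := (Fintype.equivFinOfCardEq hcard).symm
  choose e he using fun k : κ => hRs (Pi.single k 1)
  have he' : ∀ k l : κ, (e k : X → ℚ) (a l) = if k = l then 1 else 0 := by
    intro k l
    have h1 : (e k : X → ℚ) (a l) = R (e k) l := rfl
    rw [h1, he, Pi.single_apply]
    simp only [eq_comm]
  refine ⟨fun k => a (q k), fun k => (e (q k) : X → ℚ), fun k => (e (q k)).2, ?_, ?_⟩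
  · intro s hs x
    have h1 : (⟨s, hs⟩ : S) = ∑ k : κ, s (a k) • e k := by
      apply hR
      funext l
      rw [map_sum, Finset.sum_apply]
      have h2 : ∀ k : κ, R (s (a k) • e k) l = if k = l then s (a k) else 0 := by
        intro k
        rw [map_smul, Pi.smul_apply]
        have h3 : R (e k) l = if k = l then 1 else 0 := he' k l
        rw [h3, smul_eq_mul, mul_ite, mul_one, mul_zero]
      rw [Finset.sum_congr rfl fun k _ => h2 k, Finset.sum_ite_eq', if_pos (Finset.mem_univ _)]
      rfl
    have h2 := congrFun (congrArg (fun s : S => (s : X → ℚ)) h1) x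
    simp only [Submodule.coe_sum, Submodule.coe_smul, Finset.sum_apply, Pi.smul_apply,
      smul_eq_mul] at h2
    rw [h2]
    exact (Equiv.sum_comp q (fun k => s (a k) * (e k : X → ℚ) x)).symm
  · intro k l
    refine (he' (q k) (q l)).trans ?_
    simp only [EmbeddingLike.apply_eq_iff_eq]

end Pool.Agent.TH170.MF
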