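import Mathlib
import Pool.Agent.TH170.MF.Weight

/-!
# The number of signs with given linear relations modulo an odd number
-/

set_option linter.unusedSectionVars false
set_option linter.unusedVariables false

namespace Pool.Agent.TH170.MF

open Real Finset

/-- The functions with values `1` and `-1`. -/
def signs (T : Type*) [Fintype T] [DecidableEq T] : Finset (T → ℤ) :=
  Fintype.piFinset (fun _ => ({1, -1} : Finset ℤ))

theorem mem_signs {T : Type*} [Fintype T] [DecidableEq T] (ε : T → ℤ) :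
    ε ∈ signs T ↔ ∀ x, ε x = 1 ∨ ε x = -1 := by
  simp only [signs, Fintype.mem_piFinset, mem_insert, mem_singleton]

variable (N : ℕ) [NeZero N]

theorem map_sum_char {A κ : Type*} [AddCommGroup A] (ψ : AddChar A ℂ) (s : Finset κ) (f : κ → A) :
    ψ (∑ k ∈ s, f k) = ∏ k ∈ s, ψ (f k) := by
  classical
  induction s using Finset.induction_on with
  | empty => rw [sum_empty, prod_empty, AddChar.map_zero_eq_one]
  | insert k s hk ih => rw [sum_insert hk, prod_insert hk, AddChar.map_add_eq_mul, ih]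

theorem fourier_count {κ T : Type*} [Fintype κ] [DecidableEq κ] [Fintype T] [DecidableEq T]
    (W : κ → T → ZMod N) :
    (((signs T).filter (fun ε => ∀ k, ∑ x, ((ε x : ℤ) : ZMod N) * W k x = 0)).card : ℝ) *
      N ^ Fintype.card κ ≤
    2 ^ Fintype.card T * ∑ v : κ → ZMod N, ∏ x, cw N (∑ k, v k * W k x) := by
  classical
  set ψ : AddChar (ZMod N) ℂ := ZMod.stdAddChar with hψ
  have hprim : ψ.IsPrimitive := ZMod.isPrimitive_stdAddChar N
  let w : (T → ℤ) → κ → ZMod N := fun ε k => ∑ x, ((ε x : ℤ) : ZMod N) * W k x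
  let r : (T → ℤ) → ℝ := fun ε => ∏ k : κ, (if w ε k = 0 then (N : ℝ) else 0)
  have hr0 : ∀ ε, 0 ≤ r ε := fun ε => prod_nonneg fun k _ => by
    split_ifs
    · exact Nat.cast_nonneg N
    · exact le_rfl
  have hr : ∀ ε, ((r ε : ℝ) : ℂ) = ∑ v : κ → ZMod N, ∏ k, ψ (v k * w ε k) := by
    intro ε
    rw [← Fintype.piFinset_univ, ← prod_univ_sum (t := fun _ : κ => (univ : Finset (ZMod N)))
      (f := fun k t => ψ (t * w ε k))]
    simp only [r]
    push_cast
    refine prod_congr rfl fun k _ => ?_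
    rw [AddChar.sum_mulShift _ hprim, ZMod.card]
    split_ifs
    · push_cast
      rfl
    · push_cast
      rfl
  have hgood : (((signs T).filter (fun ε => ∀ k, w ε k = 0)).card : ℝ) *
      N ^ Fintype.card κ ≤ ∑ ε ∈ signs T, r ε := by
    rw [← nsmul_eq_mul, ← sum_const]
    refine (sum_le_sum fun ε hε => ?_).trans
      (sum_le_sum_of_subset_of_nonneg (filter_subset _ _) fun ε _ _ => hr0 ε)
    have h1 := (mem_filter.1 hε).2
    simp only [r]
    rw [prod_congr rfl fun k _ => if_pos (h1 k), prod_const, card_univ]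
  refine hgood.trans ?_
  have h1 : ((∑ ε ∈ signs T, r ε : ℝ) : ℂ) =
      ∑ v : κ → ZMod N, ∏ x, (ψ (∑ k, v k * W k x) + ψ (-∑ k, v k * W k x)) := by
    push_cast
    rw [sum_congr rfl fun ε _ => hr ε, sum_comm]
    refine sum_congr rfl fun v _ => ?_
    have h2 : ∀ ε : T → ℤ, ∏ k, ψ (v k * w ε k) =
        ∏ x, ψ ((ε x : ZMod N) * ∑ k, v k * W k x) := by
      intro ε
      rw [← map_sum_char, ← map_sum_char]
      congr 1
      simp only [w, mul_sum]
      rw [sum_comm]
      refine sum_congr rfl fun x _ => sum_congr rfl fun k _ => ?_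
      ring
    rw [sum_congr rfl fun ε _ => h2 ε, signs,
      ← prod_univ_sum (t := fun _ : T => ({1, -1} : Finset ℤ))
        (f := fun x a => ψ ((a : ZMod N) * ∑ k, v k * W k x))]
    refine prod_congr rfl fun x _ => ?_
    rw [sum_pair (by norm_num)]
    push_cast
    rw [one_mul, neg_one_mul]
  have h2 : (∑ ε ∈ signs T, r ε : ℝ) = ‖((∑ ε ∈ signs T, r ε : ℝ) : ℂ)‖ := by
    rw [Complex.norm_real, Real.norm_eq_abs, abs_of_nonneg (sum_nonneg fun ε _ => hr0 ε)]
  rw [h2, h1]
  refine (norm_sum_le _ _).trans (le_of_eq ?_)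
  rw [mul_sum]
  refine sum_congr rfl fun v _ => ?_
  rw [norm_prod, ← card_univ, ← prod_const, ← prod_mul_distrib]
  refine prod_congr rfl fun x _ => ?_
  rw [cw, ← hψ]
  ring

end Pool.Agent.TH170.MF
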