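import Mathlib
import Pool.Agent.TH170.MF.Fourier
import Pool.Agent.TH170.MF.Mean
import Pool.Agent.TH170.MF.Base

/-!
# The number of odd sign functions that are orthogonal to an invariant space of functions
-/

set_option linter.unusedSectionVars false
set_option linter.unusedVariables false

namespace Pool.Agent.TH170.MF

open Real Finset Module

/-- Odd functions with values `1` and `-1`. -/
def OddSign {X : Type*} (c : X → X) (f : X → ℤ) : Prop :=
  (∀ x, f x = 1 ∨ f x = -1) ∧ ∀ x, f (c x) = - f x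

/-- The odd sign functions that are orthogonal to `S`. -/
def orthSigns {X : Type*} [Fintype X] (c : X → X) (S : Submodule ℚ (X → ℚ)) : Set (X → ℤ) :=
  {f | OddSign c f ∧ ∀ s ∈ S, ∑ x, (f x : ℚ) * s x = 0}

/-- A space of functions is invariant under a group of permutations. -/
def Invariant (G : Type*) {X : Type*} [Group G] [MulAction G X] (S : Submodule ℚ (X → ℚ)) : Prop :=
  ∀ γ : G, ∀ s ∈ S, (fun x => s (γ • x)) ∈ S

/-- All functions in the space are odd. -/
def AllOdd {X : Type*} (c : X → X) (S : Submodule ℚ (X → ℚ)) : Prop :=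
  ∀ s ∈ S, ∀ x, s (c x) = - s x

variable {G X : Type*} [Group G] [Fintype G] [MulAction G X] [Fintype X] [DecidableEq X]
  [MulAction.IsPretransitive G X]

theorem exists_transversal {c : X → X} (hcc : ∀ x, c (c x) = x) (hne : ∀ x, c x ≠ x) :
    ∃ T : Finset X, ∀ x, x ∈ T ↔ c x ∉ T := by
  classical
  let e := Fintype.equivFin X
  refine ⟨univ.filter (fun x => e x < e (c x)), fun x => ?_⟩
  simp only [mem_filter, mem_univ, true_and, hcc]
  have h1 : e (c x) ≠ e x := fun h => hne x (e.injective h)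
  constructor
  · intro h
    exact not_lt.2 h.le
  · intro h
    exact lt_of_le_of_ne (not_lt.1 h) (Ne.symm h1)

theorem card_transversal {c : X → X} (hcc : ∀ x, c (c x) = x) {T : Finset X}
    (hT : ∀ x, x ∈ T ↔ c x ∉ T) : Fintype.card X = 2 * T.card := by
  have h1 := sum_transversal hcc hT (fun _ : X => 1)
  rw [sum_const, card_univ, smul_eq_mul, mul_one, sum_const, smul_eq_mul] at h1
  rw [h1]
  ring

theorem ncard_le_card {c : X → X} (hcc : ∀ x, c (c x) = x) {T : Finset X}
    (hT : ∀ x, x ∈ T ↔ c x ∉ T) (S : Submodule ℚ (X → ℚ)) (Q : Finset (T → ℤ))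
    (hQ : ∀ f ∈ orthSigns c S, (fun x : T => f x) ∈ Q) : (orthSigns c S).ncard ≤ Q.card := by
  classical
  rw [← Set.ncard_coe_finset Q]
  refine Set.ncard_le_ncard_of_injOn (fun f => fun x : T => f x) ?_ ?_ (Finset.finite_toSet Q)
  · intro f hf
    exact hQ f hf
  · intro f hf f' hf' h
    funext x
    by_cases hx : x ∈ T
    · exact congrFun h ⟨x, hx⟩
    · have hx' : c x ∈ T := by
        rw [hT, hcc]
        exact hx
      have h1 : f (c x) = f' (c x) := congrFun h ⟨c x, hx'⟩
      rw [hf.1.2, hf'.1.2] at h1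
      exact neg_injective h1

theorem ratio_identity {P T K : ℝ} (hP : P ≠ 0) (hT : T ≠ 0) (hK : K ≠ 0) :
    2 / (P * (T / K)) = 2 * K / (P * T) := by
  field_simp

theorem factor_identity {N A : ℝ} (hN : N ≠ 0) : 1 + N * A = (1 / N + A) * N := by
  field_simp

/-- The bound for one modulus. -/
theorem ncard_le_mod {c : X → X} (hcc : ∀ x, c (c x) = x) {T : Finset X}
    (hT : ∀ x, x ∈ T ↔ c x ∉ T) (S : Submodule ℚ (X → ℚ)) (hS : Invariant G S)
    (ho : AllOdd c S) {κ : Type*} [Fintype κ] [DecidableEq κ] [Nonempty κ] (a : κ → X)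
    (e : κ → X → ℚ) (he : ∀ k, e k ∈ S) (hrep : ∀ s ∈ S, ∀ x, s x = ∑ k, s (a k) * e k x)
    (hone : ∀ k l, e k (a l) = if k = l then 1 else 0) (D : ℕ) (E : κ → X → ℤ)
    (hE : ∀ k x, (E k x : ℚ) = D * e k x) (j : ℕ) :
    ((orthSigns c S).ncard : ℝ) ≤ 2 ^ T.card *
      (1 / ((2 * D * j + 1 : ℕ) : ℝ) + √(2 * Fintype.card κ / (π * T.card))) ^
        Fintype.card κ := by
  classical
  set N : ℕ := 2 * D * j + 1 with hN
  have hNz : NeZero N := ⟨by omega⟩
  have hN0 : (0 : ℝ) < N := Nat.cast_pos.2 (by omega)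
  set u : ZMod N := -(2 * j : ZMod N) with hu
  have huD : u * (D : ZMod N) = 1 := by
    have h1 : ((2 * D * j + 1 : ℕ) : ZMod N) = 0 := ZMod.natCast_self N
    push_cast at h1
    rw [hu]
    linear_combination -h1
  let W : κ → X → ZMod N := fun k x => u * (E k x : ZMod N)
  have hodd : ∀ k x, W k (c x) = - W k x := by
    intro k x
    have h1 : E k (c x) = - E k x := by
      have h2 : (E k (c x) : ℚ) = ((- E k x : ℤ) : ℚ) := by
        push_cast
        rw [hE, hE, ho (e k) (he k)]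
        ring
      exact_mod_cast h2
    simp only [W]
    rw [h1]
    push_cast
    ring
  have honeW : ∀ k l, W k (a l) = if k = l then 1 else 0 := by
    intro k l
    have h1 : E k (a l) = if k = l then (D : ℤ) else 0 := by
      have h2 : (E k (a l) : ℚ) = ((if k = l then (D : ℤ) else 0 : ℤ) : ℚ) := by
        rw [hE, hone]
        split_ifs
        · push_cast
          ring
        · push_cast
          ring
      exact_mod_cast h2
    simp only [W]
    rw [h1]
    split_ifs
    · push_cast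
      exact huD
    · push_cast
      ring
  have hinv : ∀ (γ : G) k x, W k (γ • x) = ∑ l, W k (γ • a l) * W l x := by
    intro γ k x
    have h1 : e k (γ • x) = ∑ l, e k (γ • a l) * e l x :=
      hrep (fun y => e k (γ • y)) (hS γ (e k) (he k)) x
    have h2 : (D : ℤ) * E k (γ • x) = ∑ l, E k (γ • a l) * E l x := by
      have h3 : (((D : ℤ) * E k (γ • x) : ℤ) : ℚ) = ((∑ l, E k (γ • a l) * E l x : ℤ) : ℚ) := by
        push_cast
        rw [hE, h1, mul_sum, mul_sum]
        refine sum_congr rfl fun l _ => ?_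
        rw [hE, hE]
        ring
      exact_mod_cast h3
    have h3 := congrArg (fun z : ℤ => (z : ZMod N)) h2
    push_cast at h3
    simp only [W]
    have h4 : ∑ l, u * (E k (γ • a l) : ZMod N) * (u * (E l x : ZMod N)) =
        u * u * ∑ l, (E k (γ • a l) : ZMod N) * (E l x : ZMod N) := by
      rw [mul_sum]
      exact sum_congr rfl fun l _ => by ring
    rw [h4, ← h3]
    linear_combination (-(u * (E k (γ • x) : ZMod N))) * huD
  -- counting
  have hcount := fourier_count N (κ := κ) (T := T) (fun k x => W k x)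
  have hle := ncard_le_card hcc hT S
    ((signs T).filter (fun ε => ∀ k, ∑ x, ((ε x : ℤ) : ZMod N) * W k x = 0)) (by
    intro f hf
    rw [mem_filter]
    refine ⟨(mem_signs _).2 fun x => hf.1.1 x, fun k => ?_⟩
    have h1 := hf.2 (e k) (he k)
    rw [sum_transversal hcc hT] at h1
    have h2 : ∀ x ∈ T, (f x : ℚ) * e k x + (f (c x) : ℚ) * e k (c x) =
        2 * ((f x : ℚ) * e k x) := by
      intro x _
      rw [hf.1.2, ho (e k) (he k)]
      push_cast
      ring
    rw [sum_congr rfl h2, ← mul_sum] at h1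
    have h3 : ∑ x ∈ T, (f x : ℚ) * e k x = 0 := (mul_eq_zero.1 h1).resolve_left two_ne_zero
    have h4 : ∑ x ∈ T, f x * E k x = 0 := by
      have h5 : ((∑ x ∈ T, f x * E k x : ℤ) : ℚ) = 0 := by
        push_cast
        have h6 : ∀ x ∈ T, (f x : ℚ) * (E k x : ℚ) = D * ((f x : ℚ) * e k x) := by
          intro x _
          rw [hE]
          ring
        rw [sum_congr rfl h6, ← mul_sum, h3, mul_zero]
      exact_mod_cast h5
    have h5 := congrArg (fun z : ℤ => (z : ZMod N)) h4
    push_cast at h5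
    have h6 : ∑ x : T, ((f x : ℤ) : ZMod N) * W k x =
        u * ∑ x ∈ T, (f x : ZMod N) * (E k x : ZMod N) := by
      rw [mul_sum, ← sum_coe_sort T (fun x => u * ((f x : ZMod N) * (E k x : ZMod N)))]
      refine sum_congr rfl fun x _ => ?_
      simp only [W]
      ring
    rw [h6, h5, mul_zero])
  have hsum := sum_prod_le N hcc hT a W hodd honeW hinv
  have hprod : ∀ v : κ → ZMod N, ∏ x : T, cw N (∑ k, v k * W k x) =
      ∏ x ∈ T, cw N (∑ k, v k * W k x) := fun v =>
    prod_coe_sort T (fun x => cw N (∑ k, v k * W k x))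
  rw [sum_congr rfl fun v _ => hprod v, Fintype.card_coe] at hcount
  have hT0 : 0 < T.card := by
    obtain ⟨k₀⟩ := ‹Nonempty κ›
    by_cases h : a k₀ ∈ T
    · exact card_pos.2 ⟨_, h⟩
    · refine card_pos.2 ⟨c (a k₀), ?_⟩
      rw [hT, hcc]
      exact h
  have hκ0 : 0 < Fintype.card κ := Fintype.card_pos
  have hcw := sum_cw_le N ⟨D * j, by rw [hN]; ring⟩
    (a := (T.card : ℝ) / Fintype.card κ) (div_pos (Nat.cast_pos.2 hT0) (Nat.cast_pos.2 hκ0))
  have hpow : (∑ t : ZMod N, cw N t ^ ((T.card : ℝ) / Fintype.card κ)) ^ Fintype.card κ ≤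
      (1 + N * √(2 / (π * ((T.card : ℝ) / Fintype.card κ)))) ^ Fintype.card κ :=
    pow_le_pow_left₀ (sum_nonneg fun t _ => rpow_nonneg (cw_nonneg N t) _) hcw _
  have h1 : ((orthSigns c S).ncard : ℝ) * N ^ Fintype.card κ ≤ 2 ^ T.card *
      (1 + N * √(2 / (π * ((T.card : ℝ) / Fintype.card κ)))) ^ Fintype.card κ := by
    refine le_trans ?_ (hcount.trans (mul_le_mul_of_nonneg_left (hsum.trans hpow)
      (by positivity)))
    exact mul_le_mul_of_nonneg_right (Nat.cast_le.2 hle) (by positivity)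
  have h2 : 2 / (π * ((T.card : ℝ) / Fintype.card κ)) =
      2 * Fintype.card κ / (π * T.card) :=
    ratio_identity pi_pos.ne' (Nat.cast_ne_zero.2 hT0.ne') (Nat.cast_ne_zero.2 hκ0.ne')
  rw [h2] at h1
  rw [← mul_le_mul_iff_left₀ (pow_pos hN0 (Fintype.card κ)), mul_assoc, ← mul_pow]
  refine h1.trans (le_of_eq ?_)
  rw [factor_identity (A := √(2 * (Fintype.card κ : ℝ) / (π * (T.card : ℝ)))) hN0.ne']

theorem ncard_orthSigns_le {c : X → X} (hcc : ∀ x, c (c x) = x) (hne : ∀ x, c x ≠ x)
    (S : Submodule ℚ (X → ℚ)) (hS : Invariant G S) (ho : AllOdd c S) (hS0 : S ≠ ⊥) {g : ℕ}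
    (hg : Fintype.card X = 2 * g) :
    ((orthSigns c S).ncard : ℝ) ≤ 2 ^ g * √(2 * finrank ℚ S / (π * g)) ^ finrank ℚ S := by
  classical
  obtain ⟨T, hT⟩ := exists_transversal hcc hne
  have hTg : T.card = g := by
    have := card_transversal hcc hT
    omega
  obtain ⟨a, e, he, hrep, hone⟩ := exists_base S
  have hd : 0 < finrank ℚ S := by
    rw [Module.finrank_pos_iff]
    exact (Submodule.nontrivial_iff_ne_bot).2 hS0
  have : Nonempty (Fin (finrank ℚ S)) := ⟨⟨0, hd⟩⟩
  -- the common denominator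
  obtain ⟨D, hD0, E, hE⟩ : ∃ D : ℕ, D ≠ 0 ∧ ∃ E : Fin (finrank ℚ S) → X → ℤ,
      ∀ k x, (E k x : ℚ) = D * e k x := by
    refine ⟨∏ p : Fin (finrank ℚ S) × X, (e p.1 p.2).den,
      Finset.prod_ne_zero_iff.2 (fun p _ => (e p.1 p.2).den_nz),
      fun k x => (∏ p ∈ Finset.univ.erase (k, x), (e p.1 p.2).den : ℕ) * (e k x).num,
      fun k x => ?_⟩
    rw [← Finset.prod_erase_mul _ _ (Finset.mem_univ (k, x))]
    push_cast
    rw [mul_assoc, Rat.den_mul_eq_num]
  have h1 := fun j => ncard_le_mod (G := G) hcc hT S hS ho a e he hrep hone D E hE j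
  rw [Fintype.card_fin, hTg] at h1
  have h2 : Filter.Tendsto (fun j : ℕ => (2 : ℝ) ^ g *
      (1 / ((2 * D * j + 1 : ℕ) : ℝ) + √(2 * (finrank ℚ S : ℕ) / (π * g))) ^ finrank ℚ S)
      Filter.atTop (nhds (2 ^ g * (0 + √(2 * finrank ℚ S / (π * g))) ^ finrank ℚ S)) := by
    refine Filter.Tendsto.const_mul _ (Filter.Tendsto.pow (Filter.Tendsto.add ?_
      tendsto_const_nhds) _)
    have h3 : Filter.Tendsto (fun j : ℕ => 2 * D * j + 1) Filter.atTop Filter.atTop := by
      refine Filter.tendsto_atTop_mono (f := fun j => j) (fun j => ?_) Filter.tendsto_id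
      have : 1 ≤ 2 * D := by omega
      nlinarith
    exact tendsto_one_div_atTop_nhds_zero_nat.comp h3
  rw [zero_add] at h2
  exact ge_of_tendsto' h2 h1

end Pool.Agent.TH170.MF
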