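import Mathlib
import Pool.Agent.TH170.MF.Count

/-!
# Minimal invariant spaces of odd functions
-/

set_option linter.unusedSectionVars false
set_option linter.unusedVariables false

namespace Pool.Agent.TH170.MF

open Finset Module

/-- The minimal invariant spaces of odd functions. -/
def MinInv (G : Type*) {X : Type*} [Group G] [MulAction G X] (c : X → X) :
    Set (Submodule ℚ (X → ℚ)) :=
  {S | S ≠ ⊥ ∧ Invariant G S ∧ AllOdd c S ∧ ∀ S', Invariant G S' → S' ≤ S → S' = ⊥ ∨ S' = S}

/-- An equivariant endomorphism of the space of odd functions, extended by zero to the even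
functions. -/
structure IsOddEnd (G : Type*) {X : Type*} [Group G] [MulAction G X] (c : X → X)
    (A : (X → ℚ) →ₗ[ℚ] (X → ℚ)) : Prop where
  equivariant : ∀ (γ : G) (u : X → ℚ) (x : X), A (fun y => u (γ • y)) x = A u (γ • x)
  odd : ∀ (u : X → ℚ) (x : X), A u (c x) = - A u x
  kills : ∀ (u : X → ℚ) (x : X), A (fun y => u (c y)) x = - A u x

/-- The equivariant endomorphisms of the space of odd functions commute with each other. -/
def Commuting (G : Type*) {X : Type*} [Group G] [MulAction G X] (c : X → X) : Prop :=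
  ∀ A B : (X → ℚ) →ₗ[ℚ] (X → ℚ), IsOddEnd G c A → IsOddEnd G c B → ∀ u, A (B u) = B (A u)

section

variable {G X : Type*} [Group G] [MulAction G X] [Fintype X]

theorem exists_minInv {c : X → X} (S₀ : Submodule ℚ (X → ℚ)) (hS : Invariant G S₀)
    (ho : AllOdd c S₀) (h0 : S₀ ≠ ⊥) : ∃ S ∈ MinInv G c, S ≤ S₀ := by
  classical
  have key : ∀ n, ∀ S₁ : Submodule ℚ (X → ℚ), finrank ℚ S₁ = n → Invariant G S₁ →
      AllOdd c S₁ → S₁ ≠ ⊥ → ∃ S ∈ MinInv G c, S ≤ S₁ := by
    intro n
    induction n using Nat.strong_induction_on with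
    | _ n ih =>
      intro S₁ hn hi hod hne
      by_cases hmin : ∀ S', Invariant G S' → S' ≤ S₁ → S' = ⊥ ∨ S' = S₁
      · exact ⟨S₁, ⟨hne, hi, hod, hmin⟩, le_rfl⟩
      · push Not at hmin
        obtain ⟨S', h1, h2, h3, h4⟩ := hmin
        have h5 : finrank ℚ S' < n := by
          rw [← hn]
          exact Submodule.finrank_lt_finrank_of_lt (lt_of_le_of_ne h2 h4)
        obtain ⟨S, hS, hle⟩ := ih _ h5 S' rfl h1 (fun s hs => hod s (h2 hs)) h3
        exact ⟨S, hS, hle.trans h2⟩
  exact key _ S₀ rfl hS ho h0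

/-- The standard bilinear form on the functions. -/
noncomputable def dot (X : Type*) [Fintype X] : LinearMap.BilinForm ℚ (X → ℚ) :=
  LinearMap.mk₂ ℚ (fun u v => ∑ x, u x * v x)
    (fun u u' v => by simp only [Pi.add_apply, add_mul, sum_add_distrib])
    (fun q u v => by simp only [Pi.smul_apply, smul_eq_mul, mul_sum, mul_assoc])
    (fun u v v' => by simp only [Pi.add_apply, mul_add, sum_add_distrib])
    (fun q u v => by
      simp only [Pi.smul_apply, smul_eq_mul, mul_sum]
      exact sum_congr rfl fun x _ => by ring)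

theorem dot_apply (u v : X → ℚ) : dot X u v = ∑ x, u x * v x := rfl

theorem dot_comm (u v : X → ℚ) : dot X u v = dot X v u := by
  rw [dot_apply, dot_apply]
  exact sum_congr rfl fun x _ => mul_comm _ _

theorem dot_isRefl : (dot X).IsRefl := by
  intro u v h
  rw [dot_comm]
  exact h

theorem dot_self {u : X → ℚ} (h : dot X u u = 0) : u = 0 := by
  rw [dot_apply, sum_eq_zero_iff_of_nonneg (fun x _ => mul_self_nonneg _)] at h
  funext x
  exact mul_self_eq_zero.1 (h x (mem_univ x))

theorem isCompl_orth (S : Submodule ℚ (X → ℚ)) : IsCompl S ((dot X).orthogonal S) := by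
  rw [LinearMap.BilinForm.isCompl_orthogonal_iff_disjoint dot_isRefl, Submodule.disjoint_def]
  intro u h1 h2
  exact dot_self (h2 u h1)

theorem mem_orth (S : Submodule ℚ (X → ℚ)) (v : X → ℚ) :
    v ∈ (dot X).orthogonal S ↔ ∀ s ∈ S, ∑ x, s x * v x = 0 := Iff.rfl

/-- The orthogonal projection. -/
noncomputable def proj (S : Submodule ℚ (X → ℚ)) : (X → ℚ) →ₗ[ℚ] (X → ℚ) :=
  S.projection ((dot X).orthogonal S) (isCompl_orth S)

theorem proj_mem (S : Submodule ℚ (X → ℚ)) (u : X → ℚ) : proj S u ∈ S :=
  Submodule.projection_apply_mem _ _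

theorem proj_of_mem (S : Submodule ℚ (X → ℚ)) {u : X → ℚ} (hu : u ∈ S) : proj S u = u :=
  Submodule.projection_apply_of_mem_left _ hu

theorem sub_proj_mem (S : Submodule ℚ (X → ℚ)) (u : X → ℚ) :
    u - proj S u ∈ (dot X).orthogonal S :=
  Submodule.sub_projection_mem _ _

theorem proj_of_orth (S : Submodule ℚ (X → ℚ)) {u : X → ℚ} (hu : u ∈ (dot X).orthogonal S) :
    proj S u = 0 := by
  have h1 := Submodule.sub_mem _ hu (sub_proj_mem S u)
  rw [sub_sub_cancel] at h1
  exact (Submodule.disjoint_def.1 (isCompl_orth S).disjoint) _ (proj_mem S u) h1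

/-- The value of the projection is determined by its properties. -/
theorem proj_eq (S : Submodule ℚ (X → ℚ)) {u s : X → ℚ} (hs : s ∈ S)
    (h : u - s ∈ (dot X).orthogonal S) : proj S u = s := by
  have h1 : u = s + (u - s) := by abel
  rw [h1, map_add, proj_of_mem S hs, proj_of_orth S h, add_zero]

variable {c : X → X}

theorem isOddEnd_proj (hcc : ∀ x, c (c x) = x) {S : Submodule ℚ (X → ℚ)} (hS : Invariant G S)
    (ho : AllOdd c S) : IsOddEnd G c (proj S) := by
  constructor
  · intro γ u x
    have h1 : proj S (fun y => u (γ • y)) = fun y => proj S u (γ • y) := by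
      refine proj_eq S (hS γ _ (proj_mem S u)) ?_
      rw [mem_orth]
      intro s hs
      have h2 := (mem_orth S _).1 (sub_proj_mem S u) _ (hS γ⁻¹ s hs)
      rw [← Equiv.sum_comp (MulAction.toPerm γ)] at h2
      simp only [MulAction.toPerm_apply, inv_smul_smul, Pi.sub_apply] at h2
      exact h2
    rw [h1]
  · intro u x
    exact ho _ (proj_mem S u) x
  · intro u x
    have h1 : proj S (fun y => u (c y)) = - proj S u := by
      refine proj_eq S (Submodule.neg_mem _ (proj_mem S u)) ?_
      rw [mem_orth]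
      intro s hs
      have h2 := (mem_orth S _).1 (sub_proj_mem S u) _ hs
      let e : X ≃ X := ⟨c, c, hcc, hcc⟩
      rw [← Equiv.sum_comp e] at h2
      have h3 : ∀ y, s (e y) * (u - proj S u) (e y) =
          -(s y * ((fun y => u (c y)) - - proj S u) y) := by
        intro y
        change s (c y) * (u (c y) - proj S u (c y)) = -(s y * (u (c y) - - proj S u y))
        rw [ho s hs, ho _ (proj_mem S u)]
        ring
      rw [sum_congr rfl fun y _ => h3 y, sum_neg_distrib, neg_eq_zero] at h2
      exact h2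
    rw [h1]
    rfl

theorem orthogonal_of_commuting (hcc : ∀ x, c (c x) = x) (hcomm : Commuting G c)
    {S S' : Submodule ℚ (X → ℚ)} (hS : S ∈ MinInv G c) (hS' : S' ∈ MinInv G c) (hne : S ≠ S') :
    S' ≤ (dot X).orthogonal S := by
  obtain ⟨h0, hi, ho, hmin⟩ := hS
  obtain ⟨h0', hi', ho', hmin'⟩ := hS'
  have hinf : S ⊓ S' = ⊥ := by
    have hinv : Invariant G (S ⊓ S') := fun γ s hs => ⟨hi γ s hs.1, hi' γ s hs.2⟩
    rcases hmin _ hinv inf_le_left with h | h
    · exact h
    · rcases hmin' _ hinv inf_le_right with h' | h'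
      · exact h'
      · exact absurd (h.symm.trans h') hne
  intro s' hs'
  have h1 := hcomm (proj S) (proj S') (isOddEnd_proj hcc hi ho) (isOddEnd_proj hcc hi' ho') s'
  rw [proj_of_mem S' hs'] at h1
  have h2 : proj S s' ∈ S ⊓ S' := ⟨proj_mem S s', by rw [h1]; exact proj_mem S' _⟩
  rw [hinf, Submodule.mem_bot] at h2
  have h3 := sub_proj_mem S s'
  rwa [h2, sub_zero] at h3

end

section dimension

variable {X : Type*} [Fintype X] [DecidableEq X]

/-- Odd functions form a space of dimension at most half the number of points. -/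
theorem finrank_le_of_allOdd {c : X → X} (hcc : ∀ x, c (c x) = x) (hne : ∀ x, c x ≠ x)
    {S : Submodule ℚ (X → ℚ)} (ho : AllOdd c S) {g : ℕ} (hg : Fintype.card X = 2 * g) :
    finrank ℚ S ≤ g := by
  classical
  obtain ⟨T, hT⟩ := exists_transversal hcc hne
  have hTg : T.card = g := by
    have := card_transversal hcc hT
    omega
  let R : S →ₗ[ℚ] (T → ℚ) := (LinearMap.funLeft ℚ ℚ (fun x : T => (x : X))).comp S.subtype
  have hR : Function.Injective R := by
    rw [← LinearMap.ker_eq_bot, LinearMap.ker_eq_bot']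
    intro s hs
    ext x
    by_cases hx : x ∈ T
    · exact congrFun hs ⟨x, hx⟩
    · have hx' : c x ∈ T := by
        rw [hT, hcc]
        exact hx
      have h1 : (s : X → ℚ) (c x) = 0 := congrFun hs ⟨c x, hx'⟩
      rw [ho s s.2, neg_eq_zero] at h1
      exact h1
  have h1 := LinearMap.finrank_le_finrank_of_injective hR
  rwa [Module.finrank_fintype_fun_eq_card, Fintype.card_coe, hTg] at h1

/-- The dimensions of pairwise orthogonal spaces of odd functions. -/
theorem sum_finrank_le {c : X → X} (hcc : ∀ x, c (c x) = x) (hne : ∀ x, c x ≠ x)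
    (F : Finset (Submodule ℚ (X → ℚ))) (ho : ∀ S ∈ F, AllOdd c S)
    (horth : ∀ S ∈ F, ∀ S' ∈ F, S ≠ S' → S' ≤ (dot X).orthogonal S) {g : ℕ}
    (hg : Fintype.card X = 2 * g) : ∑ S ∈ F, finrank ℚ S ≤ g := by
  classical
  have key : ∀ F : Finset (Submodule ℚ (X → ℚ)), (∀ S ∈ F, AllOdd c S) →
      (∀ S ∈ F, ∀ S' ∈ F, S ≠ S' → S' ≤ (dot X).orthogonal S) →
      AllOdd c (F.sup id) ∧ finrank ℚ (F.sup id : Submodule ℚ (X → ℚ)) =
        ∑ S ∈ F, finrank ℚ S := by
    intro F
    induction F using Finset.induction_on with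
    | empty =>
      intro _ _
      refine ⟨?_, ?_⟩
      · intro s hs x
        rw [sup_empty, Submodule.mem_bot] at hs
        rw [hs]
        simp
      · rw [sup_empty, sum_empty]
        exact finrank_bot ℚ (X → ℚ)
    | insert S F hSF ih =>
      intro h1 h2
      obtain ⟨h3, h4⟩ := ih (fun S' h => h1 S' (mem_insert_of_mem h))
        (fun S' h S'' h' => h2 S' (mem_insert_of_mem h) S'' (mem_insert_of_mem h'))
      rw [sup_insert, id_eq]
      refine ⟨?_, ?_⟩
      · intro s hs x
        obtain ⟨s₁, hs₁, s₂, hs₂, rfl⟩ := Submodule.mem_sup.1 hs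
        rw [Pi.add_apply, Pi.add_apply, h1 S (mem_insert_self _ _) s₁ hs₁, h3 s₂ hs₂]
        ring
      · have h5 : F.sup id ≤ (dot X).orthogonal S := by
          refine Finset.sup_le fun S' hS' => ?_
          refine h2 S (mem_insert_self _ _) S' (mem_insert_of_mem hS') ?_
          rintro rfl
          exact hSF hS'
        have h6 : S ⊓ F.sup id = ⊥ := by
          rw [eq_bot_iff]
          intro s hs
          exact (Submodule.disjoint_def.1 (isCompl_orth S).disjoint) s hs.1 (h5 hs.2)
        have h7 := Submodule.finrank_sup_add_finrank_inf_eq S (F.sup id)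
        rw [h6, finrank_bot, add_zero] at h7
        rw [h7, h4, sum_insert hSF]
  obtain ⟨h1, h2⟩ := key F ho horth
  rw [← h2]
  exact finrank_le_of_allOdd hcc hne h1 hg

end dimension

end Pool.Agent.TH170.MF
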