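import Mathlib
import Pool.Agent.TH170.MF.Min

/-!
# Criteria for commuting endomorphisms
-/

set_option linter.unusedSectionVars false
set_option linter.unusedVariables false

namespace Pool.Agent.TH170.MF

open Finset Module

variable {G X : Type*} [Group G] [MulAction G X] [Fintype X] [DecidableEq X]

theorem apply_eq_sum (A : (X → ℚ) →ₗ[ℚ] (X → ℚ)) (u : X → ℚ) (x : X) :
    A u x = ∑ y, A (Pi.single y 1) x * u y := by
  have h1 : u = ∑ y, u y • (Pi.single y (1 : ℚ) : X → ℚ) := by
    funext z
    rw [Finset.sum_apply]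
    simp only [Pi.smul_apply, smul_eq_mul, Pi.single_apply]
    simp
  conv_lhs => rw [h1]
  rw [map_sum, Finset.sum_apply]
  refine sum_congr rfl fun y _ => ?_
  rw [map_smul, Pi.smul_apply, smul_eq_mul, mul_comm]

theorem entry_smul {A : (X → ℚ) →ₗ[ℚ] (X → ℚ)}
    (hA : ∀ (γ : G) (u : X → ℚ) (x : X), A (fun y => u (γ • y)) x = A u (γ • x)) (γ : G) (x y : X) :
    A (Pi.single (γ • y) 1) (γ • x) = A (Pi.single y 1) x := by
  rw [← hA γ]
  have h1 : (fun z => (Pi.single (γ • y) (1 : ℚ) : X → ℚ) (γ • z)) = Pi.single y 1 := by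
    funext z
    rw [Pi.single_apply, Pi.single_apply]
    simp only [smul_left_cancel_iff]
  rw [h1]

theorem comp_entry (A B : (X → ℚ) →ₗ[ℚ] (X → ℚ)) (x y : X) :
    A (B (Pi.single y 1)) x = ∑ z, A (Pi.single z 1) x * B (Pi.single y 1) z :=
  apply_eq_sum A _ x

theorem commute_of_entries {A B : (X → ℚ) →ₗ[ℚ] (X → ℚ)}
    (h : ∀ x y, A (B (Pi.single y 1)) x = B (A (Pi.single y 1)) x) (u : X → ℚ) :
    A (B u) = B (A u) := by
  funext x
  have h1 := apply_eq_sum (A.comp B) u x
  have h2 := apply_eq_sum (B.comp A) u x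
  simp only [LinearMap.comp_apply] at h1 h2
  rw [h1, h2]
  exact sum_congr rfl fun y _ => by rw [h]

/-- Endomorphisms commute if any two points can be exchanged. -/
theorem commuting_of_swap (c : X → X) (h : ∀ x y : X, ∃ γ : G, γ • x = y ∧ γ • y = x) :
    Commuting G c := by
  intro A B hA hB
  have hsymm : ∀ C : (X → ℚ) →ₗ[ℚ] (X → ℚ),
      (∀ (γ : G) (u : X → ℚ) (x : X), C (fun y => u (γ • y)) x = C u (γ • x)) →
      ∀ x y, C (Pi.single y 1) x = C (Pi.single x 1) y := by
    intro C hC x y
    obtain ⟨γ, h1, h2⟩ := h x y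
    have h3 := entry_smul hC γ x y
    rw [h1, h2] at h3
    exact h3.symm
  have hAB : ∀ (γ : G) (u : X → ℚ) (x : X),
      (A.comp B) (fun y => u (γ • y)) x = (A.comp B) u (γ • x) := by
    intro γ u x
    have h1 : B (fun y => u (γ • y)) = fun y => B u (γ • y) :=
      funext fun y => hB.equivariant γ u y
    rw [LinearMap.comp_apply, LinearMap.comp_apply, ← hA.equivariant, h1]
  refine commute_of_entries fun x y => ?_
  have h1 := hsymm (A.comp B) hAB x y
  rw [LinearMap.comp_apply, LinearMap.comp_apply, comp_entry, comp_entry] at h1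
  rw [comp_entry, comp_entry, h1]
  refine sum_congr rfl fun z _ => ?_
  rw [hsymm A hA.equivariant y z, hsymm B hB.equivariant z x, mul_comm]

/-- Endomorphisms commute if the group acts transitively through an abelian group. -/
theorem commuting_of_abelian (c : X → X) (htr : ∀ x y : X, ∃ γ : G, γ • x = y)
    (hab : ∀ (γ δ : G) (x : X), γ • δ • x = δ • γ • x) : Commuting G c := by
  intro A B hA hB
  refine commute_of_entries fun x y => ?_
  rw [comp_entry, comp_entry]
  choose p hp using fun z => htr z x
  have hinj : Function.Injective (fun z => p z • y) := by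
    intro z w hzw
    obtain ⟨ε, hε⟩ := htr y z
    have h1 : ε • p z • y = ε • p w • y := by
      have h2 : p z • y = p w • y := hzw
      rw [h2]
    rw [hab ε, hab ε, hε, hp] at h1
    have h2 : p w • z = p w • w := by rw [← h1, hp]
    exact (smul_left_cancel_iff (p w)).1 h2
  have hbij : Function.Bijective (fun z => p z • y) := Finite.injective_iff_bijective.1 hinj
  rw [← Function.Bijective.sum_comp hbij
    (fun z => B (Pi.single z 1) x * A (Pi.single y 1) z)]
  refine sum_congr rfl fun z _ => ?_
  have h1 : B (Pi.single (p z • y) 1) x = B (Pi.single y 1) z := by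
    have h2 := entry_smul hB.equivariant (p z) z y
    rwa [hp] at h2
  have h2 : A (Pi.single y 1) (p z • y) = A (Pi.single z 1) x := by
    obtain ⟨δ, hδ⟩ := htr z y
    have h3 := entry_smul hA.equivariant δ x z
    rw [hδ] at h3
    have h4 : δ • x = p z • y := by
      rw [← hδ, hab, hp]
    rwa [h4] at h3
  rw [h1, h2, mul_comm]

end Pool.Agent.TH170.MF
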