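import Mathlib
import Pool.Agent.TH170.CM.Defs

/-!
# Galois-stable spaces of odd functions on the embeddings of a CM field
-/

namespace Pool.Agent.TH170.MF

open NumberField Module Pool.Agent.H204R3.CM Pool.Agent.TH170.CM

section

variable {E : Type*} [Field E]

/-- A space of rational functions on the set of complex embeddings is stable under the automorphisms
of the complex numbers. -/
def IsStable (S : Submodule ℚ ((E →+* ℂ) → ℚ)) : Prop :=
  ∀ σ : ℂ ≃+* ℂ, ∀ s ∈ S, (fun φ => s ((σ : ℂ →+* ℂ).comp φ)) ∈ S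

/-- All functions in the space change the sign under complex conjugation. -/
def IsOddSpace (S : Submodule ℚ ((E →+* ℂ) → ℚ)) : Prop :=
  ∀ s ∈ S, ∀ φ : E →+* ℂ, s (ComplexEmbedding.conjugate φ) = - s φ

/-- The Galois-equivariant endomorphisms of the space of odd functions (extended by zero to the
even functions). -/
structure IsGaloisEnd (A : ((E →+* ℂ) → ℚ) →ₗ[ℚ] ((E →+* ℂ) → ℚ)) : Prop where
  equivariant : ∀ (σ : ℂ ≃+* ℂ) (u : (E →+* ℂ) → ℚ) (φ : E →+* ℂ),
    A (fun ψ => u ((σ : ℂ →+* ℂ).comp ψ)) φ = A u ((σ : ℂ →+* ℂ).comp φ)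
  odd : ∀ (u : (E →+* ℂ) → ℚ) (φ : E →+* ℂ), A u (ComplexEmbedding.conjugate φ) = - A u φ
  kills : ∀ (u : (E →+* ℂ) → ℚ) (φ : E →+* ℂ),
    A (fun ψ => u (ComplexEmbedding.conjugate ψ)) φ = - A u φ

end

/-- The minimal Galois-stable spaces of odd functions on the embeddings of `E`. -/
def minimalSpaces (E : Type*) [Field E] : Set (Submodule ℚ ((E →+* ℂ) → ℚ)) :=
  {S | S ≠ ⊥ ∧ IsStable S ∧ IsOddSpace S ∧ ∀ S', IsStable S' → S' ≤ S → S' = ⊥ ∨ S' = S}

/-- The number of the minimal Galois-stable spaces of odd functions of dimension `d`. -/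
noncomputable def numSpaces (E : Type*) [Field E] (d : ℕ) : ℕ :=
  {S ∈ minimalSpaces E | finrank ℚ S = d}.ncard

/-- The representation of the Galois group on the odd functions is multiplicity free: its
equivariant endomorphisms commute with each other. -/
def MultiplicityFree (E : Type*) [Field E] : Prop :=
  ∀ A B : ((E →+* ℂ) → ℚ) →ₗ[ℚ] ((E →+* ℂ) → ℚ), IsGaloisEnd A → IsGaloisEnd B →
    ∀ u, A (B u) = B (A u)

/-- The CM types of `E` whose sign functions are orthogonal to `S`. -/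
def typesOrthogonalTo {E : Type*} [Field E] [NumberField E]
    (S : Submodule ℚ ((E →+* ℂ) → ℚ)) : Set (Set (E →+* ℂ)) :=
  {Φ | IsCMType Φ ∧ ∀ s ∈ S, ∑ φ, s φ * sgn Φ φ = 0}

end Pool.Agent.TH170.MF
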