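import Mathlib

/-!
# Estimates for the sum over the minimal spaces
-/

set_option linter.unusedSectionVars false
set_option linter.unusedVariables false

namespace Pool.Agent.TH170.MF

open Real Finset

theorem pow_bound {d : ℕ} (hd : 3 ≤ d) : (16 / 25 : ℝ) ^ d * d ≤ 1 := by
  induction d, hd using Nat.le_induction with
  | base => norm_num
  | succ d hd ih =>
    have h1 : (3 : ℝ) ≤ d := by exact_mod_cast hd
    have h2 : (0 : ℝ) < (16 / 25) ^ d := by positivity
    rw [pow_succ]
    push_cast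
    have h3 : (16 / 25 : ℝ) ^ d * (16 / 25) * (d + 1) ≤ (16 / 25) ^ d * d := by
      rw [mul_assoc]
      apply mul_le_mul_of_nonneg_left _ h2.le
      linarith
    exact h3.trans ih

theorem two_div_pi_le : 2 / π ≤ 16 / 25 := by
  rw [div_le_iff₀ pi_pos]
  have := pi_gt_d2
  linarith

theorem term_one {g : ℕ} (hg : 0 < g) : √(2 * (1 : ℕ) / (π * g)) ^ 1 ≤ 1 / √g := by
  have hg' : (0 : ℝ) < g := Nat.cast_pos.2 hg
  rw [pow_one, ← sqrt_one, ← sqrt_div zero_le_one]
  apply sqrt_le_sqrt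
  rw [div_le_div_iff₀ (by positivity) hg']
  have := two_div_pi_le
  have := pi_gt_three
  push_cast
  nlinarith

theorem term_two {g : ℕ} (hg : 0 < g) : √(2 * (2 : ℕ) / (π * g)) ^ 2 ≤ 2 / g := by
  have hg' : (0 : ℝ) < g := Nat.cast_pos.2 hg
  rw [sq_sqrt (by positivity), div_le_div_iff₀ (by positivity) hg']
  have := pi_gt_three
  push_cast
  nlinarith

theorem term_three {d g : ℕ} (hd : 3 ≤ d) (hdg : d ≤ g) :
    √(2 * d / (π * g)) ^ d ≤ (d / g : ℝ) * (1 / √g) := by
  have hg : 0 < g := by omega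
  have hg' : (0 : ℝ) < g := Nat.cast_pos.2 hg
  have hd' : (0 : ℝ) < d := Nat.cast_pos.2 (by omega)
  have hy1 : (d : ℝ) / g ≤ 1 := by
    rw [div_le_one hg']
    exact_mod_cast hdg
  have hy0 : 0 ≤ (d : ℝ) / g := by positivity
  apply le_of_sq_le_sq _ (by positivity)
  have h1 : (√(2 * d / (π * g)) ^ d) ^ 2 = (2 / π * (d / g)) ^ d := by
    rw [← pow_mul, mul_comm d 2, pow_mul, sq_sqrt (by positivity)]
    congr 1
    field_simp
  have h2 : ((d / g : ℝ) * (1 / √g)) ^ 2 = (d / g : ℝ) ^ 3 * (1 / d) := by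
    rw [mul_pow, div_pow, div_pow, div_pow, sq_sqrt hg'.le]
    field_simp
  rw [h1, h2]
  calc (2 / π * (d / g)) ^ d ≤ (16 / 25 * (d / g)) ^ d :=
        pow_le_pow_left₀ (by positivity) (mul_le_mul_of_nonneg_right two_div_pi_le hy0) _
    _ = (16 / 25) ^ d * (d / g) ^ d := by rw [mul_pow]
    _ ≤ (1 / d) * (d / g : ℝ) ^ 3 := by
        apply mul_le_mul _ _ (by positivity) (by positivity)
        · rw [le_div_iff₀ hd']
          exact pow_bound hd
        · exact pow_le_pow_of_le_one hy0 hy1 hd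
    _ = _ := mul_comm _ _

/-- The sum over a finite set of spaces with given dimensions. -/
theorem sum_terms_le {ι : Type*} (F : Finset ι) (dim : ι → ℕ) (hdim : ∀ i ∈ F, 0 < dim i)
    {g : ℕ} (hg : 0 < g) (hsum : ∑ i ∈ F, dim i ≤ g) :
    ∑ i ∈ F, √(2 * dim i / (π * g)) ^ dim i ≤
      ((F.filter (fun i => dim i = 1)).card + 1) / √g +
        2 * (F.filter (fun i => dim i = 2)).card / g := by
  classical
  have hg' : (0 : ℝ) < g := Nat.cast_pos.2 hg
  have hle : ∀ i ∈ F, dim i ≤ g := fun i hi =>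
    (single_le_sum (f := dim) (fun _ _ => Nat.zero_le _) hi).trans hsum
  have h1 : ∀ i ∈ F, √(2 * dim i / (π * g)) ^ dim i ≤
      (if dim i = 1 then 1 / √g else (0 : ℝ)) + (if dim i = 2 then (2 : ℝ) / g else (0 : ℝ)) +
        (dim i / g : ℝ) * (1 / √g) := by
    intro i hi
    have h2 : 0 ≤ (dim i / g : ℝ) * (1 / √g) := by positivity
    by_cases h3 : dim i = 1
    · rw [if_pos h3, if_neg (by omega), h3]
      have h4 := term_one hg
      rw [h3] at h2
      push_cast at h2 h4 ⊢
      linarith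
    by_cases h4 : dim i = 2
    · rw [if_neg h3, if_pos h4, h4]
      have h5 := term_two hg
      rw [h4] at h2
      push_cast at h2 h5 ⊢
      linarith
    rw [if_neg h3, if_neg h4, zero_add, zero_add]
    have h5 := hdim i hi
    exact term_three (by omega) (hle i hi)
  refine (sum_le_sum h1).trans ?_
  rw [sum_add_distrib, sum_add_distrib, ← sum_filter, ← sum_filter, sum_const, sum_const,
    ← sum_mul, ← sum_div, nsmul_eq_mul, nsmul_eq_mul]
  have h2 : (∑ i ∈ F, (dim i : ℝ)) / g ≤ 1 := by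
    rw [div_le_one hg', ← Nat.cast_sum]
    exact_mod_cast hsum
  have h3 : (∑ i ∈ F, (dim i : ℝ)) / g * (1 / √g) ≤ 1 * (1 / √g) :=
    mul_le_mul_of_nonneg_right h2 (by positivity)
  have h4 : ((F.filter (fun i => dim i = 1)).card : ℝ) * (1 / √g) +
      ((F.filter (fun i => dim i = 2)).card : ℝ) * (2 / g) + 1 * (1 / √g) =
      ((F.filter (fun i => dim i = 1)).card + 1) / √g +
        2 * (F.filter (fun i => dim i = 2)).card / g := by ring
  linarith

end Pool.Agent.TH170.MF
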