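import Mathlib
import Pool.Agent.H977R3.CM.Aut
import Pool.Agent.H204R3.CM.Nondeg
import Pool.Agent.TH170.MF.Defs
import Pool.Agent.TH170.MF.Crit
import Pool.Agent.TH170.MF.Num

/-!
# The number of degenerate CM types of a CM field
-/

set_option linter.unusedSectionVars false
set_option linter.unusedVariables false

namespace Pool.Agent.TH170.MF

open NumberField Module Finset Pool.Agent.H204R3.CM Pool.Agent.TH170.CM

section action

variable (E : Type*) [Field E]

/-- The permutation of the embeddings given by an automorphism of the complex numbers. -/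
def permOf (σ : ℂ ≃+* ℂ) : Equiv.Perm (E →+* ℂ) where
  toFun φ := (σ : ℂ →+* ℂ).comp φ
  invFun φ := (σ.symm : ℂ →+* ℂ).comp φ
  left_inv φ := by
    ext x
    exact σ.symm_apply_apply (φ x)
  right_inv φ := by
    ext x
    exact σ.apply_symm_apply (φ x)

/-- The action of the automorphisms of the complex numbers. -/
def actHom : (ℂ ≃+* ℂ) →* Equiv.Perm (E →+* ℂ) where
  toFun := permOf E
  map_one' := by
    ext φ x
    rfl
  map_mul' σ τ := by
    ext φ x
    rfl

/-- The Galois group, as a group of permutations of the embeddings. -/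
abbrev Gal : Subgroup (Equiv.Perm (E →+* ℂ)) := (actHom E).range

theorem gal_smul (γ : Gal E) : ∃ σ : ℂ ≃+* ℂ, ∀ φ : E →+* ℂ, γ • φ = (σ : ℂ →+* ℂ).comp φ := by
  obtain ⟨γ, σ, rfl⟩ := γ
  exact ⟨σ, fun φ => rfl⟩

theorem exists_gal_smul (σ : ℂ ≃+* ℂ) :
    ∃ γ : Gal E, ∀ φ : E →+* ℂ, γ • φ = (σ : ℂ →+* ℂ).comp φ :=
  ⟨⟨actHom E σ, σ, rfl⟩, fun φ => rfl⟩

variable [NumberField E]

theorem exists_comp_eq (φ ψ : E →+* ℂ) : ∃ σ : ℂ ≃+* ℂ, (σ : ℂ →+* ℂ).comp φ = ψ := by
  obtain ⟨L, _, _, j, hj⟩ := exists_galois (fun _ : Unit => E)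
  obtain ⟨φ', hφ'⟩ := hj () φ
  obtain ⟨ψ', hψ'⟩ := hj () ψ
  let _ := φ'.toAlgebra
  have : IsScalarTower ℚ E L := inferInstance
  let χ : E →ₐ[ℚ] L := RingHom.equivRatAlgHom E L ψ'
  let f : L →ₐ[ℚ] L := χ.liftNormal L
  let g : L ≃ₐ[ℚ] L := AlgEquiv.ofBijective f (AlgHom.bijective f)
  obtain ⟨σ, hσ⟩ := Pool.Agent.H977R3.CM.exists_aut j (g : L ≃+* L)
  refine ⟨σ, ?_⟩
  ext x
  have h1 : g (φ' x) = ψ' x := χ.liftNormal_commutes L x
  rw [← hφ', ← hψ']
  change σ (j (φ' x)) = j (ψ' x)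
  rw [hσ]
  exact congrArg j h1

instance : MulAction.IsPretransitive (Gal E) (E →+* ℂ) := ⟨fun φ ψ => by
  obtain ⟨σ, hσ⟩ := exists_comp_eq E φ ψ
  obtain ⟨γ, hγ⟩ := exists_gal_smul E σ
  exact ⟨γ, by rw [hγ, hσ]⟩⟩

noncomputable instance : Fintype (Gal E) := Fintype.ofFinite _

end action

section conj

variable {E : Type*} [Field E]

theorem invariant_iff (S : Submodule ℚ ((E →+* ℂ) → ℚ)) :
    Invariant (Gal E) S ↔ IsStable S := by
  constructor
  · intro h σ s hs
    obtain ⟨γ, hγ⟩ := exists_gal_smul E σ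
    have h1 := h γ s hs
    simp only [hγ] at h1
    exact h1
  · intro h γ s hs
    obtain ⟨σ, hσ⟩ := gal_smul E γ
    simp only [hσ]
    exact h σ s hs

theorem minInv_iff (S : Submodule ℚ ((E →+* ℂ) → ℚ)) :
    S ∈ MinInv (Gal E) (ComplexEmbedding.conjugate (K := E)) ↔ S ∈ minimalSpaces E := by
  unfold MinInv minimalSpaces
  simp only [Set.mem_ofPred_eq, invariant_iff]
  rfl

theorem isOddEnd_iff (A : ((E →+* ℂ) → ℚ) →ₗ[ℚ] ((E →+* ℂ) → ℚ)) :
    IsOddEnd (Gal E) (ComplexEmbedding.conjugate (K := E)) A ↔ IsGaloisEnd A := by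
  constructor
  · intro h
    refine ⟨fun σ u φ => ?_, h.odd, h.kills⟩
    obtain ⟨γ, hγ⟩ := exists_gal_smul E σ
    have h1 := h.equivariant γ u φ
    simp only [hγ] at h1
    exact h1
  · intro h
    refine ⟨fun γ u φ => ?_, h.odd, h.kills⟩
    obtain ⟨σ, hσ⟩ := gal_smul E γ
    simp only [hσ]
    exact h.equivariant σ u φ

theorem commuting_iff : Commuting (Gal E) (ComplexEmbedding.conjugate (K := E)) ↔
    MultiplicityFree E := by
  unfold Commuting MultiplicityFree
  simp only [isOddEnd_iff]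

theorem conj_conj (φ : E →+* ℂ) :
    ComplexEmbedding.conjugate (ComplexEmbedding.conjugate φ) = φ := star_star φ

theorem conj_ne [NumberField E] [IsCMField E] (φ : E →+* ℂ) :
    ComplexEmbedding.conjugate φ ≠ φ := by
  intro h
  exact IsTotallyComplex.complexEmbedding_not_isReal φ h

end conj

end Pool.Agent.TH170.MF
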