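import Mathlib
import Pool.Agent.TH170.MF.Field

/-!
# The number of degenerate CM types of a CM field
-/

set_option linter.unusedSectionVars false
set_option linter.unusedVariables false

namespace Pool.Agent.TH170.MF

open NumberField Module Finset Pool.Agent.H204R3.CM Pool.Agent.TH170.CM

section

variable {E : Type*} [Field E] [NumberField E] [IsCMField E]

theorem finite_orthSigns (S : Submodule ℚ ((E →+* ℂ) → ℚ)) :
    (orthSigns (ComplexEmbedding.conjugate (K := E)) S).Finite := by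
  refine Set.Finite.subset (Set.Finite.pi' (fun _ : E →+* ℂ => (Set.finite_insert.2
    (Set.finite_singleton (-1)) : ({1, -1} : Set ℤ).Finite))) ?_
  intro f hf φ
  rcases hf.1.1 φ with h | h
  · exact Or.inl h
  · exact Or.inr h

theorem oddSign_sgn {Φ : Set (E →+* ℂ)} (hΦ : IsCMType Φ) :
    OddSign (ComplexEmbedding.conjugate (K := E)) (sgn Φ) := by
  classical
  constructor
  · intro φ
    unfold sgn
    split_ifs
    · exact Or.inl rfl
    · exact Or.inr rfl
  · intro φ
    unfold sgn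
    by_cases h : φ ∈ Φ
    · rw [if_pos h, if_neg ((hΦ φ).1 h)]
    · rw [if_neg h, if_pos, neg_neg]
      rw [hΦ, conj_conj]
      exact h

theorem sgn_injective {Φ Φ' : Set (E →+* ℂ)} (h : sgn Φ = sgn Φ') : Φ = Φ' := by
  classical
  ext φ
  have h1 := congrFun h φ
  unfold sgn at h1
  by_cases h2 : φ ∈ Φ <;> by_cases h3 : φ ∈ Φ'
  · exact ⟨fun _ => h3, fun _ => h2⟩
  · rw [if_pos h2, if_neg h3] at h1
    norm_num at h1
  · rw [if_neg h2, if_pos h3] at h1
    norm_num at h1
  · exact ⟨fun h4 => absurd h4 h2, fun h4 => absurd h4 h3⟩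

/-- The number of CM types orthogonal to a Galois-stable space of odd functions. -/
theorem ncard_typesOrthogonalTo (S : Submodule ℚ ((E →+* ℂ) → ℚ)) (hS : IsStable S)
    (ho : IsOddSpace S) (hS0 : S ≠ ⊥) {g : ℕ} (hg : finrank ℚ E = 2 * g) :
    ((typesOrthogonalTo S).ncard : ℝ) ≤
      2 ^ g * √(2 * finrank ℚ S / (Real.pi * g)) ^ finrank ℚ S := by
  classical
  have h1 := ncard_orthSigns_le (G := Gal E) (c := ComplexEmbedding.conjugate (K := E))
    conj_conj conj_ne S ((invariant_iff S).2 hS) ho hS0 (g := g) (by rw [Embeddings.card, hg])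
  refine le_trans ?_ h1
  rw [Nat.cast_le]
  refine Set.ncard_le_ncard_of_injOn sgn ?_ ?_ (finite_orthSigns S)
  · rintro Φ ⟨hΦ, hsum⟩
    refine ⟨oddSign_sgn hΦ, fun s hs => ?_⟩
    rw [← hsum s hs]
    exact sum_congr rfl fun φ _ => mul_comm _ _
  · intro Φ _ Φ' _ h
    exact sgn_injective h

/-- A degenerate CM type is orthogonal to a minimal Galois-stable space of odd functions. -/
theorem exists_minimal_of_degenerate {Φ : Set (E →+* ℂ)} (hΦ : IsCMType Φ)
    (hd : Degenerate Φ) : ∃ S ∈ minimalSpaces E, Φ ∈ typesOrthogonalTo S := by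
  classical
  obtain ⟨b, hb, hodd, hrel⟩ := hd
  let S₀ : Submodule ℚ ((E →+* ℂ) → ℚ) :=
    { carrier := {u | (∀ φ, u (ComplexEmbedding.conjugate φ) = - u φ) ∧
        ∀ σ : ℂ ≃+* ℂ, ∑ φ, u φ * (sgn Φ ((σ : ℂ →+* ℂ).comp φ) : ℚ) = 0}
      zero_mem' := by
        refine ⟨fun φ => by simp, fun σ => ?_⟩
        simp
      add_mem' := by
        rintro u v ⟨h1, h2⟩ ⟨h3, h4⟩
        refine ⟨fun φ => ?_, fun σ => ?_⟩
        · rw [Pi.add_apply, Pi.add_apply, h1, h3]
          ring
        · simp only [Pi.add_apply, add_mul, sum_add_distrib]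
          rw [h2, h4, add_zero]
      smul_mem' := by
        rintro q u ⟨h1, h2⟩
        refine ⟨fun φ => ?_, fun σ => ?_⟩
        · rw [Pi.smul_apply, Pi.smul_apply, h1, smul_eq_mul, smul_eq_mul]
          ring
        · simp only [Pi.smul_apply, smul_eq_mul, mul_assoc]
          rw [← mul_sum, h2, mul_zero] }
  have hst : IsStable S₀ := by
    rintro τ u ⟨h1, h2⟩
    refine ⟨fun φ => ?_, fun σ => ?_⟩
    · have h3 : (τ : ℂ →+* ℂ).comp (ComplexEmbedding.conjugate φ) =
          ComplexEmbedding.conjugate ((τ : ℂ →+* ℂ).comp φ) := by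
        ext x
        have h4 : ComplexEmbedding.conjugate φ x = φ (IsCMField.complexConj E x) := by
          rw [ComplexEmbedding.conjugate_coe_eq, IsCMField.complexEmbedding_complexConj]
        have h5 : ComplexEmbedding.conjugate ((τ : ℂ →+* ℂ).comp φ) x =
            ((τ : ℂ →+* ℂ).comp φ) (IsCMField.complexConj E x) := by
          rw [ComplexEmbedding.conjugate_coe_eq, IsCMField.complexEmbedding_complexConj]
        rw [h5, RingHom.comp_apply, h4, RingHom.comp_apply]
      change u ((τ : ℂ →+* ℂ).comp (ComplexEmbedding.conjugate φ)) = - u ((τ : ℂ →+* ℂ).comp φ)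
      rw [h3, h1]
    · change ∑ φ, u (permOf E τ φ) * (sgn Φ ((σ : ℂ →+* ℂ).comp φ) : ℚ) = 0
      have h3 := h2 (τ.symm.trans σ)
      rw [← Equiv.sum_comp (permOf E τ)] at h3
      rw [← h3]
      refine sum_congr rfl fun φ _ => ?_
      have h4 : ((τ.symm.trans σ : ℂ ≃+* ℂ) : ℂ →+* ℂ).comp (permOf E τ φ) =
          (σ : ℂ →+* ℂ).comp φ := by
        ext x
        change σ (τ.symm (τ (φ x))) = σ (φ x)
        rw [RingEquiv.symm_apply_apply]
      rw [h4]
  have hS0 : S₀ ≠ ⊥ := by
    rw [Submodule.ne_bot_iff]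
    refine ⟨fun φ => (b φ : ℚ), ⟨fun φ => ?_, fun σ => ?_⟩, ?_⟩
    · change ((b (ComplexEmbedding.conjugate φ) : ℤ) : ℚ) = - (b φ : ℚ)
      rw [hodd]
      push_cast
      rfl
    · have h1 := hrel σ
      have h2 : ((∑ φ, b φ * sgn Φ ((σ : ℂ →+* ℂ).comp φ) : ℤ) : ℚ) = 0 := by
        rw [h1, Int.cast_zero]
      push_cast at h2
      exact h2
    · intro h1
      apply hb
      funext φ
      have h2 : (b φ : ℚ) = 0 := congrFun h1 φ
      exact_mod_cast h2
  have ho : IsOddSpace S₀ := fun s hs => hs.1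
  obtain ⟨S, hS, hle⟩ := exists_minInv (G := Gal E) (c := ComplexEmbedding.conjugate (K := E))
    S₀ ((invariant_iff _).2 hst) ho hS0
  refine ⟨S, (minInv_iff S).1 hS, hΦ, fun s hs => ?_⟩
  have h1 := (hle hs).2 (RingEquiv.refl ℂ)
  exact h1

variable (E)

/-- The minimal spaces of a multiplicity free representation are orthogonal. -/
theorem sum_finrank_minimal (hE : MultiplicityFree E) {g : ℕ} (hg : finrank ℚ E = 2 * g)
    (F : Finset (Submodule ℚ ((E →+* ℂ) → ℚ))) (hF : ∀ S ∈ F, S ∈ minimalSpaces E) :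
    ∑ S ∈ F, finrank ℚ S ≤ g := by
  classical
  refine sum_finrank_le (c := ComplexEmbedding.conjugate (K := E)) conj_conj conj_ne F
    (fun S hS => (hF S hS).2.2.1) ?_ (by rw [Embeddings.card, hg])
  intro S hS S' hS' hne
  exact orthogonal_of_commuting (G := Gal E) conj_conj (commuting_iff.2 hE)
    ((minInv_iff S).2 (hF S hS)) ((minInv_iff S').2 (hF S' hS')) hne

theorem finrank_pos_of_minimal {S : Submodule ℚ ((E →+* ℂ) → ℚ)} (hS : S ∈ minimalSpaces E) :
    0 < finrank ℚ S := by
  rw [Module.finrank_pos_iff]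
  exact (Submodule.nontrivial_iff_ne_bot).2 hS.1

theorem finite_minimalSpaces (hE : MultiplicityFree E) : (minimalSpaces E).Finite := by
  classical
  by_contra hinf
  have hg : ∃ g, finrank ℚ E = 2 * g := by
    have h1 := card_transversal (X := E →+* ℂ) (c := ComplexEmbedding.conjugate (K := E))
      conj_conj (T := (exists_transversal conj_conj conj_ne).choose)
      (exists_transversal conj_conj conj_ne).choose_spec
    rw [Embeddings.card] at h1
    exact ⟨_, h1⟩
  obtain ⟨g, hg⟩ := hg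
  obtain ⟨F, hF, hcard⟩ := Set.Infinite.exists_subset_card_eq hinf (g + 1)
  have h1 := sum_finrank_minimal E hE hg F (fun S hS => hF hS)
  have h2 : ∑ S ∈ F, 1 ≤ ∑ S ∈ F, finrank ℚ S :=
    sum_le_sum fun S hS => finrank_pos_of_minimal E (hF hS)
  rw [sum_const, smul_eq_mul, mul_one, hcard] at h2
  omega

/-- The number of degenerate CM types in the multiplicity free case. -/
theorem ncard_degenerate_le (hE : MultiplicityFree E) {g : ℕ} (hg : finrank ℚ E = 2 * g) :
    ((degenerateTypes E).ncard : ℝ) ≤ 2 ^ g * ∑ᶠ S ∈ minimalSpaces E,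
      √(2 * finrank ℚ S / (Real.pi * g)) ^ finrank ℚ S := by
  classical
  have hfin := finite_minimalSpaces E hE
  rw [finsum_mem_eq_finite_toFinset_sum _ hfin, mul_sum]
  have h1 : degenerateTypes E ⊆ ⋃ S ∈ hfin.toFinset, typesOrthogonalTo S := by
    rintro Φ ⟨hΦ, hd⟩
    obtain ⟨S, hS, hmem⟩ := exists_minimal_of_degenerate hΦ hd
    exact Set.mem_biUnion (hfin.mem_toFinset.2 hS) hmem
  have h2 : (degenerateTypes E).ncard ≤ ∑ S ∈ hfin.toFinset, (typesOrthogonalTo S).ncard := by
    refine (Set.ncard_le_ncard h1 (Set.toFinite _)).trans ?_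
    exact Finset.set_ncard_biUnion_le _ _
  refine (Nat.cast_le.2 h2).trans ?_
  rw [Nat.cast_sum]
  refine sum_le_sum fun S hS => ?_
  have hS' := hfin.mem_toFinset.1 hS
  exact ncard_typesOrthogonalTo S hS'.2.1 hS'.2.2.1 hS'.1 hg

theorem sum_minimal_le (hE : MultiplicityFree E) {g : ℕ} (hg : finrank ℚ E = 2 * g) :
    ∑ᶠ S ∈ minimalSpaces E, √(2 * finrank ℚ S / (Real.pi * g)) ^ finrank ℚ S ≤
      (numSpaces E 1 + 1) / √g + 2 * numSpaces E 2 / g := by
  classical
  have hfin := finite_minimalSpaces E hE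
  have hg0 : 0 < g := by
    have := Module.finrank_pos (R := ℚ) (M := E)
    omega
  rw [finsum_mem_eq_finite_toFinset_sum _ hfin]
  have h1 := sum_terms_le hfin.toFinset (fun S => finrank ℚ S)
    (fun S hS => finrank_pos_of_minimal E (hfin.mem_toFinset.1 hS)) hg0
    (sum_finrank_minimal E hE hg hfin.toFinset (fun S hS => hfin.mem_toFinset.1 hS))
  have h2 : ∀ d, ((hfin.toFinset.filter (fun S : Submodule ℚ ((E →+* ℂ) → ℚ) =>
      finrank ℚ S = d)).card : ℝ) =
      numSpaces E d := by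
    intro d
    have h3 : {S ∈ minimalSpaces E | finrank ℚ S = d} =
        ((hfin.toFinset.filter (fun S : Submodule ℚ ((E →+* ℂ) → ℚ) => finrank ℚ S = d) :
          Finset (Submodule ℚ ((E →+* ℂ) → ℚ))) : Set (Submodule ℚ ((E →+* ℂ) → ℚ))) := by
      ext S
      simp only [coe_filter, Set.Finite.mem_toFinset, Set.mem_ofPred_eq]
    unfold numSpaces
    rw [h3, Set.ncard_coe_finset]
  rw [h2, h2] at h1
  exact h1

end

end Pool.Agent.TH170.MF
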