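import Mathlib
import Pool.Agent.TH170.MF.Main
import Pool.Agent.TH170.CM.Field

/-!
# Multiplicity free CM fields
-/

set_option linter.unusedSectionVars false
set_option linter.unusedVariables false

namespace Pool.Agent.TH170.MF

open NumberField Module Finset Pool.Agent.H204R3.CM Pool.Agent.TH170.CM

/-- Any two embeddings of `E` can be exchanged by an automorphism of the complex numbers. -/
def ExchangeableEmbeddings (E : Type*) [Field E] : Prop :=
  ∀ φ ψ : E →+* ℂ, ∃ σ : ℂ ≃+* ℂ, (σ : ℂ →+* ℂ).comp φ = ψ ∧ (σ : ℂ →+* ℂ).comp ψ = φ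

theorem multiplicityFree_of_exchangeable (E : Type*) [Field E] [NumberField E]
    (h : ExchangeableEmbeddings E) : MultiplicityFree E := by
  classical
  rw [← commuting_iff]
  refine commuting_of_swap _ fun φ ψ => ?_
  obtain ⟨σ, h1, h2⟩ := h φ ψ
  obtain ⟨γ, hγ⟩ := exists_gal_smul E σ
  exact ⟨γ, by rw [hγ, h1], by rw [hγ, h2]⟩

theorem multiplicityFree_of_abelian (E : Type*) [Field E] [NumberField E] [IsCMField E]
    [IsAbelianGalois ℚ E] : MultiplicityFree E := by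
  classical
  rw [← commuting_iff]
  have key : ∀ σ : ℂ ≃+* ℂ, ∃ g : E ≃ₐ[ℚ] E, ∀ φ : E →+* ℂ,
      (σ : ℂ →+* ℂ).comp φ = φ.comp (g : E →+* E) := by
    intro σ
    obtain ⟨φ₀⟩ : Nonempty (E →+* ℂ) := inferInstance
    obtain ⟨g, hg⟩ := (emb_bijective φ₀).2 ((σ : ℂ →+* ℂ).comp φ₀)
    refine ⟨g, fun φ => ?_⟩
    obtain ⟨h, rfl⟩ := (emb_bijective φ₀).2 φ
    change (σ : ℂ →+* ℂ).comp (φ₀.comp (h : E →+* E)) =
      (φ₀.comp (h : E →+* E)).comp (g : E →+* E)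
    rw [← RingHom.comp_assoc, ← hg]
    ext x
    have h1 : g * h = h * g := mul_comm' g h
    exact congrArg φ₀ (congrArg (fun k : E ≃ₐ[ℚ] E => k x) h1)
  refine commuting_of_abelian _ (fun φ ψ => MulAction.exists_smul_eq (Gal E) φ ψ)
    fun γ δ φ => ?_
  obtain ⟨σ, hσ⟩ := gal_smul E γ
  obtain ⟨τ, hτ⟩ := gal_smul E δ
  obtain ⟨g, hg⟩ := key σ
  obtain ⟨h, hh⟩ := key τ
  rw [hσ, hτ, hτ, hσ, hg, hh, hh, hg]
  ext x
  have h1 : h * g = g * h := mul_comm' h g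
  exact congrArg φ (congrArg (fun k : E ≃ₐ[ℚ] E => k x) h1)

end Pool.Agent.TH170.MF
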