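import Mathlib
import Pool.Agent.TH170.MF.Main
import Pool.Agent.TH170.CM.Field

/-!
# One-dimensional spaces of odd functions and imaginary quadratic subfields
-/

set_option linter.unusedSectionVars false
set_option linter.unusedVariables false

namespace Pool.Agent.TH170.MF

open NumberField Module Finset Pool.Agent.H204R3.CM Pool.Agent.TH170.CM

/-- The number of the imaginary quadratic subfields of `E`. -/
noncomputable def numImagQuadratic (E : Type*) [Field E] [NumberField E] : ℕ :=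
  {K : IntermediateField ℚ E | finrank ℚ K = 2 ∧ ¬ IsTotallyReal K}.ncard

/-- A function with values `1` and `-1` that spans a Galois-stable space of odd functions. -/
structure IsSignChar {E : Type*} [Field E] (ε : (E →+* ℂ) → ℤ) : Prop where
  val : ∀ φ, ε φ = 1 ∨ ε φ = -1
  stable : ∀ σ : ℂ ≃+* ℂ, (∀ φ, ε ((σ : ℂ →+* ℂ).comp φ) = ε φ) ∨
    ∀ φ, ε ((σ : ℂ →+* ℂ).comp φ) = - ε φ
  odd : ∀ φ, ε (ComplexEmbedding.conjugate φ) = - ε φ

theorem sq_eq_one_cases {q : ℚ} (h : q ^ 2 = 1) : q = 1 ∨ q = -1 := by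
  have h1 : (q - 1) * (q + 1) = 0 := by linear_combination h
  rcases mul_eq_zero.1 h1 with h2 | h2
  · left
    linarith
  · right
    linarith

section

variable {E : Type*} [Field E] [NumberField E] [IsCMField E]

theorem exists_signChar {S : Submodule ℚ ((E →+* ℂ) → ℚ)} (hS : S ∈ minimalSpaces E)
    (h1 : finrank ℚ S = 1) : ∃ ε : (E →+* ℂ) → ℤ, IsSignChar ε ∧
      S = Submodule.span ℚ {fun φ => (ε φ : ℚ)} := by
  classical
  obtain ⟨h0, hst, ho, -⟩ := hS
  obtain ⟨⟨s, hsS⟩, hs0, hs⟩ := finrank_eq_one_iff'.1 h1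
  have hs0' : s ≠ 0 := fun h => hs0 (Subtype.ext h)
  have hs' : ∀ u ∈ S, ∃ q : ℚ, ∀ φ, u φ = q * s φ := by
    intro u hu
    obtain ⟨q, hq⟩ := hs ⟨u, hu⟩
    refine ⟨q, fun φ => ?_⟩
    have h3 := congrFun (congrArg (fun t : S => (t : (E →+* ℂ) → ℚ)) hq) φ
    exact h3.symm
  have hpos : 0 < ∑ φ, s φ ^ 2 := by
    obtain ⟨φ, hφ⟩ : ∃ φ, s φ ≠ 0 := by
      by_contra h
      push Not at h
      exact hs0' (funext h)
    exact sum_pos' (fun _ _ => sq_nonneg _) ⟨φ, mem_univ φ, by positivity⟩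
  have hq : ∀ σ : ℂ ≃+* ℂ, (∀ φ, s ((σ : ℂ →+* ℂ).comp φ) = s φ) ∨
      ∀ φ, s ((σ : ℂ →+* ℂ).comp φ) = -s φ := by
    intro σ
    obtain ⟨q, h2⟩ := hs' _ (hst σ s hsS)
    have h3 : q ^ 2 * ∑ φ, s φ ^ 2 = ∑ φ, s φ ^ 2 := by
      rw [mul_sum]
      refine Eq.trans (sum_congr rfl fun φ _ => ?_)
        (Equiv.sum_comp (permOf E σ) (fun φ => s φ ^ 2))
      have h4 : s (permOf E σ φ) = q * s φ := h2 φ
      rw [h4, mul_pow]
    have h4 : q ^ 2 = 1 := by
      have h5 : (q ^ 2 - 1) * ∑ φ, s φ ^ 2 = 0 := by rw [sub_mul, h3, one_mul, sub_self]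
      rcases mul_eq_zero.1 h5 with h6 | h6
      · linarith
      · exact absurd h6 hpos.ne'
    rcases sq_eq_one_cases h4 with h5 | h5
    · left
      intro φ
      rw [h2 φ, h5, one_mul]
    · right
      intro φ
      rw [h2 φ, h5, neg_one_mul]
  obtain ⟨φ₀⟩ : Nonempty (E →+* ℂ) := inferInstance
  have hval : ∀ φ, s φ = s φ₀ ∨ s φ = - s φ₀ := by
    intro φ
    obtain ⟨σ, hσ⟩ := exists_comp_eq E φ₀ φ
    rcases hq σ with h | h
    · left
      rw [← hσ, h]
    · right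
      rw [← hσ, h]
  have ha : s φ₀ ≠ 0 := by
    intro h
    apply hs0'
    funext φ
    rcases hval φ with h2 | h2
    · rw [h2, h]
      rfl
    · rw [h2, h, neg_zero]
      rfl
  have hne : s φ₀ ≠ - s φ₀ := by
    intro h
    apply ha
    linarith
  let ε : (E →+* ℂ) → ℤ := fun φ => if s φ = s φ₀ then 1 else -1
  have hε : ∀ φ, s φ = s φ₀ * ε φ := by
    intro φ
    simp only [ε]
    rcases hval φ with h2 | h2
    · rw [if_pos h2, h2]
      push_cast
      ring
    · rw [if_neg (by rw [h2]; exact hne.symm), h2]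
      push_cast
      ring
  have hinj : ∀ φ ψ, s φ = s ψ → ε φ = ε ψ := by
    intro φ ψ h
    simp only [ε]
    rw [h]
  have hneg : ∀ φ ψ, s φ = - s ψ → ε φ = - ε ψ := by
    intro φ ψ h
    have h2 : (ε φ : ℚ) = - (ε ψ : ℚ) := by
      rw [hε φ, hε ψ] at h
      have h3 : s φ₀ * ((ε φ : ℚ) + ε ψ) = 0 := by linear_combination h
      have h4 := (mul_eq_zero.1 h3).resolve_left ha
      linarith
    exact_mod_cast h2
  refine ⟨ε, ⟨?_, ?_, ?_⟩, ?_⟩
  · intro φ
    simp only [ε]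
    split_ifs
    · exact Or.inl rfl
    · exact Or.inr rfl
  · intro σ
    rcases hq σ with h | h
    · exact Or.inl fun φ => hinj _ _ (h φ)
    · exact Or.inr fun φ => hneg _ _ (h φ)
  · intro φ
    exact hneg _ _ (ho s hsS φ)
  · apply le_antisymm
    · intro u hu
      obtain ⟨q, h2⟩ := hs' u hu
      rw [Submodule.mem_span_singleton]
      refine ⟨q * s φ₀, ?_⟩
      funext φ
      rw [Pi.smul_apply, smul_eq_mul, h2 φ, hε φ]
      ring
    · rw [Submodule.span_singleton_le_iff_mem]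
      have h2 : (fun φ => (ε φ : ℚ)) = (s φ₀)⁻¹ • s := by
        funext φ
        rw [Pi.smul_apply, smul_eq_mul, hε φ, inv_mul_cancel_left₀ ha]
      rw [h2]
      exact Submodule.smul_mem _ _ hsS

/-- Sums of an odd number of signs are not zero. -/
theorem sum_signs_ne {κ : Type*} (T : Finset κ) (hT : Odd T.card) (f : κ → ℤ)
    (hf : ∀ x, f x = 1 ∨ f x = -1) : ∑ x ∈ T, f x ≠ 0 := by
  intro h
  have h1 : ((∑ x ∈ T, f x : ℤ) : ZMod 2) = (T.card : ZMod 2) := by
    rw [Int.cast_sum, card_eq_sum_ones, Nat.cast_sum]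
    refine sum_congr rfl fun x _ => ?_
    rcases hf x with h2 | h2
    · rw [h2]
      rfl
    · rw [h2]
      rfl
  rw [h, Int.cast_zero] at h1
  have h2 : Even T.card := (ZMod.natCast_eq_zero_iff_even).1 h1.symm
  exact (Nat.not_even_iff_odd.2 hT) h2

/-- There are no CM types orthogonal to a one-dimensional space if `g` is odd. -/
theorem typesOrthogonalTo_eq_empty {S : Submodule ℚ ((E →+* ℂ) → ℚ)}
    (hS : S ∈ minimalSpaces E) (h1 : finrank ℚ S = 1) {g : ℕ} (hg : finrank ℚ E = 2 * g)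
    (hodd : Odd g) : typesOrthogonalTo S = ∅ := by
  classical
  obtain ⟨ε, hε, rfl⟩ := exists_signChar hS h1
  rw [Set.eq_empty_iff_forall_notMem]
  rintro Φ ⟨hΦ, hsum⟩
  have h2 := hsum _ (Submodule.mem_span_singleton_self _)
  obtain ⟨T, hT⟩ := exists_transversal (X := E →+* ℂ) (c := ComplexEmbedding.conjugate (K := E))
    conj_conj conj_ne
  have hTg : T.card = g := by
    have := card_transversal (X := E →+* ℂ) (c := ComplexEmbedding.conjugate (K := E)) conj_conj hT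
    rw [Embeddings.card, hg] at this
    omega
  rw [sum_transversal (c := ComplexEmbedding.conjugate (K := E)) conj_conj hT] at h2
  have h3 : ∀ φ ∈ T, (ε φ : ℚ) * sgn Φ φ +
      (ε (ComplexEmbedding.conjugate φ) : ℚ) * sgn Φ (ComplexEmbedding.conjugate φ) =
      2 * ((ε φ * sgn Φ φ : ℤ) : ℚ) := by
    intro φ _
    rw [hε.odd, (oddSign_sgn hΦ).2]
    push_cast
    ring
  rw [sum_congr rfl h3, ← mul_sum, ← Int.cast_sum] at h2
  have h4 := (mul_eq_zero.1 h2).resolve_left two_ne_zero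
  have h5 : ∑ φ ∈ T, ε φ * sgn Φ φ = 0 := by exact_mod_cast h4
  refine sum_signs_ne T (by rw [hTg]; exact hodd) _ ?_ h5
  intro φ
  rcases hε.val φ with h6 | h6 <;> rcases (oddSign_sgn hΦ).1 φ with h7 | h7 <;> rw [h6, h7] <;>
    decide

end

end Pool.Agent.TH170.MF
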