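import Mathlib
import Pool.Agent.TH170.MF.Num

/-!
# Sharper estimates for the sum over the minimal spaces
-/

set_option linter.unusedSectionVars false
set_option linter.unusedVariables false

namespace Pool.Agent.TH170.MF

open Real Finset

theorem pow_bound4 {d : ℕ} (hd : 4 ≤ d) : (16 / 25 : ℝ) ^ d * d ^ 2 ≤ 4 := by
  induction d, hd using Nat.le_induction with
  | base => norm_num
  | succ d hd ih =>
    have h1 : (4 : ℝ) ≤ d := by exact_mod_cast hd
    have h2 : (0 : ℝ) < (16 / 25) ^ d := by positivity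
    rw [pow_succ]
    push_cast
    have h3 : (16 / 25 : ℝ) ^ d * (16 / 25) * (d + 1) ^ 2 ≤ (16 / 25) ^ d * d ^ 2 := by
      rw [mul_assoc]
      apply mul_le_mul_of_nonneg_left _ h2.le
      nlinarith
    exact h3.trans ih

theorem term_eq_three {g : ℕ} (hg : 0 < g) :
    √(2 * (3 : ℕ) / (π * g)) ^ 3 ≤ 3 / (g * √g) := by
  have hg' : (0 : ℝ) < g := Nat.cast_pos.2 hg
  have h1 : 2 * ((3 : ℕ) : ℝ) / (π * g) ≤ 2 / g := by
    rw [div_le_div_iff₀ (by positivity) hg']
    have := pi_gt_three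
    push_cast
    nlinarith
  have h2 : √(2 * (3 : ℕ) / (π * g)) ^ 3 ≤ √(2 / g) ^ 3 :=
    pow_le_pow_left₀ (sqrt_nonneg _) (sqrt_le_sqrt h1) 3
  refine h2.trans ?_
  have h3 : √(2 / (g : ℝ)) ^ 3 = 2 / g * √(2 / g) := by
    rw [pow_succ, sq_sqrt (by positivity)]
  rw [h3, sqrt_div (by norm_num : (0 : ℝ) ≤ 2)]
  have h4 : √2 ≤ 3 / 2 := by
    rw [sqrt_le_left (by norm_num)]
    norm_num
  have h5 : 0 < √(g : ℝ) := sqrt_pos.2 hg'
  calc 2 / (g : ℝ) * (√2 / √g) = 2 * √2 / (g * √g) := by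
        field_simp
    _ ≤ 3 / (g * √g) := by
        apply div_le_div_of_nonneg_right _ (by positivity)
        linarith

theorem term_four {d g : ℕ} (hd : 4 ≤ d) (hdg : d ≤ g) :
    √(2 * d / (π * g)) ^ d ≤ (d / g : ℝ) * (2 / g) := by
  have hg : 0 < g := by omega
  have hg' : (0 : ℝ) < g := Nat.cast_pos.2 hg
  have hd' : (0 : ℝ) < d := Nat.cast_pos.2 (by omega)
  have hy1 : (d : ℝ) / g ≤ 1 := by
    rw [div_le_one hg']
    exact_mod_cast hdg
  have hy0 : 0 ≤ (d : ℝ) / g := by positivity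
  apply le_of_sq_le_sq _ (by positivity)
  have h1 : (√(2 * d / (π * g)) ^ d) ^ 2 = (2 / π * (d / g)) ^ d := by
    rw [← pow_mul, mul_comm d 2, pow_mul, sq_sqrt (by positivity)]
    congr 1
    field_simp
  have h2 : ((d / g : ℝ) * (2 / g)) ^ 2 = (d / g : ℝ) ^ 4 * (4 / d ^ 2) := by
    field_simp
    ring
  rw [h1, h2]
  calc (2 / π * (d / g)) ^ d ≤ (16 / 25 * (d / g)) ^ d :=
        pow_le_pow_left₀ (by positivity) (mul_le_mul_of_nonneg_right two_div_pi_le hy0) _
    _ = (16 / 25) ^ d * (d / g) ^ d := by rw [mul_pow]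
    _ ≤ (4 / d ^ 2) * (d / g : ℝ) ^ 4 := by
        apply mul_le_mul _ _ (by positivity) (by positivity)
        · rw [le_div_iff₀ (by positivity)]
          exact pow_bound4 hd
        · exact pow_le_pow_of_le_one hy0 hy1 hd
    _ = _ := mul_comm _ _

/-- The sum over a finite set of spaces with given dimensions, for counts that vanish at dimension
one if `g` is odd. -/
theorem sum_counts_le {ι : Type*} (F : Finset ι) (dim : ι → ℕ) (hdim : ∀ i ∈ F, 0 < dim i)
    {g : ℕ} (hg : 0 < g) (hsum : ∑ i ∈ F, dim i ≤ g) (cnt : ι → ℝ)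
    (hcnt : ∀ i ∈ F, cnt i ≤ √(2 * dim i / (π * g)) ^ dim i)
    (hodd : Odd g → ∀ i ∈ F, dim i = 1 → cnt i = 0) :
    ∑ i ∈ F, cnt i ≤
      (if Even g then ((F.filter (fun i => dim i = 1)).card : ℝ) / √g else 0) +
        2 * ((F.filter (fun i => dim i = 2)).card + 1) / g +
        3 * (F.filter (fun i => dim i = 3)).card / (g * √g) := by
  classical
  have hg' : (0 : ℝ) < g := Nat.cast_pos.2 hg
  have hle : ∀ i ∈ F, dim i ≤ g := fun i hi =>
    (single_le_sum (f := dim) (fun _ _ => Nat.zero_le _) hi).trans hsum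
  obtain ⟨A, hA⟩ : ∃ A : ℝ, A = if Even g then 1 / √g else 0 := ⟨_, rfl⟩
  have h1 : ∀ i ∈ F, cnt i ≤
      (if dim i = 1 then A else (0 : ℝ)) +
        (if dim i = 2 then (2 : ℝ) / g else (0 : ℝ)) +
        (if dim i = 3 then (3 : ℝ) / (g * √g) else (0 : ℝ)) + (dim i / g : ℝ) * (2 / g) := by
    intro i hi
    have h2 : 0 ≤ (dim i / g : ℝ) * (2 / g) := by positivity
    by_cases h3 : dim i = 1
    · rw [if_pos h3, if_neg (by omega), if_neg (by omega)]
      by_cases h4 : Even g
      · rw [if_pos h4] at hA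
        have h5 := hcnt i hi
        rw [h3] at h5
        have h6 := term_one hg
        rw [← hA] at h6
        linarith
      · rw [if_neg h4] at hA
        rw [hodd (Nat.not_even_iff_odd.1 h4) i hi h3, hA]
        linarith
    by_cases h4 : dim i = 2
    · rw [if_neg h3, if_pos h4, if_neg (by omega)]
      have h5 := hcnt i hi
      rw [h4] at h5
      have h6 := term_two hg
      linarith
    by_cases h5 : dim i = 3
    · rw [if_neg h3, if_neg h4, if_pos h5]
      have h6 := hcnt i hi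
      rw [h5] at h6
      have h7 := term_eq_three hg
      linarith
    rw [if_neg h3, if_neg h4, if_neg h5, zero_add, zero_add, zero_add]
    have h6 := hdim i hi
    exact (hcnt i hi).trans (term_four (by omega) (hle i hi))
  refine (sum_le_sum h1).trans ?_
  rw [sum_add_distrib, sum_add_distrib, sum_add_distrib, ← sum_filter, ← sum_filter,
    ← sum_filter, sum_const, sum_const, sum_const, ← sum_mul, ← sum_div, nsmul_eq_mul,
    nsmul_eq_mul, nsmul_eq_mul]
  have h2 : (∑ i ∈ F, (dim i : ℝ)) / g ≤ 1 := by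
    rw [div_le_one hg', ← Nat.cast_sum]
    exact_mod_cast hsum
  have h3 : (∑ i ∈ F, (dim i : ℝ)) / g * (2 / g) ≤ 1 * (2 / g) :=
    mul_le_mul_of_nonneg_right h2 (by positivity)
  have h4 : ((F.filter (fun i => dim i = 1)).card : ℝ) * A =
      (if Even g then ((F.filter (fun i => dim i = 1)).card : ℝ) / √g else 0) := by
    rw [hA]
    split_ifs
    · ring
    · ring
  rw [h4]
  have h5 : ((F.filter (fun i => dim i = 2)).card : ℝ) * (2 / g) +
      ((F.filter (fun i => dim i = 3)).card : ℝ) * (3 / (g * √g)) + 1 * (2 / g) =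
        2 * ((F.filter (fun i => dim i = 2)).card + 1) / g +
        3 * (F.filter (fun i => dim i = 3)).card / (g * √g) := by ring
  linarith

end Pool.Agent.TH170.MF
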