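import Mathlib
import Pool.Agent.TH170.MF.Quad

/-!
# The number of one-dimensional spaces of odd functions
-/

set_option linter.unusedSectionVars false
set_option linter.unusedVariables false

namespace Pool.Agent.TH170.MF

open NumberField Module Finset Pool.Agent.H204R3.CM Pool.Agent.TH170.CM

section

variable {E : Type*} [Field E] [NumberField E] [IsCMField E] {L : Type*} [Field L] [NumberField L]
  [IsGalois ℚ L] (j : L →+* ℂ)

/-- The automorphisms of `L` that leave all functions in `S` invariant. -/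
def kerSub (S : Submodule ℚ ((E →+* ℂ) → ℚ)) : Subgroup (L ≃ₐ[ℚ] L) where
  carrier := {g | ∀ s ∈ S, ∀ φ : E →+* L, s (j.comp ((g : L →+* L).comp φ)) = s (j.comp φ)}
  one_mem' := fun s _ φ => rfl
  mul_mem' := by
    intro g h hg hh s hs φ
    have h1 := hg s hs ((h : L →+* L).comp φ)
    rw [hh s hs φ] at h1
    exact h1
  inv_mem' := by
    intro g hg s hs φ
    have h1 := hg s hs (((g⁻¹ : L ≃ₐ[ℚ] L) : L →+* L).comp φ)
    have h2 : (g : L →+* L).comp (((g⁻¹ : L ≃ₐ[ℚ] L) : L →+* L).comp φ) = φ := by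
      ext x
      exact g.apply_symm_apply (φ x)
    rw [h2] at h1
    exact h1.symm

theorem mem_kerSub_iff {ε : (E →+* ℂ) → ℤ} (g : L ≃ₐ[ℚ] L) :
    g ∈ kerSub j (Submodule.span ℚ {fun φ : E →+* ℂ => (ε φ : ℚ)}) ↔
      ∀ φ : E →+* L, ε (j.comp ((g : L →+* L).comp φ)) = ε (j.comp φ) := by
  constructor
  · intro h φ
    have h1 := h _ (Submodule.mem_span_singleton_self _) φ
    exact_mod_cast h1
  · intro h s hs φ
    obtain ⟨q, rfl⟩ := Submodule.mem_span_singleton.1 hs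
    rw [Pi.smul_apply, Pi.smul_apply, h φ]

theorem signChar_cases {ε : (E →+* ℂ) → ℤ} (hε : IsSignChar ε) (g : L ≃ₐ[ℚ] L) :
    (∀ φ : E →+* L, ε (j.comp ((g : L →+* L).comp φ)) = ε (j.comp φ)) ∨
      ∀ φ : E →+* L, ε (j.comp ((g : L →+* L).comp φ)) = - ε (j.comp φ) := by
  obtain ⟨σ, hσ⟩ := Pool.Agent.H977R3.CM.exists_aut j (g : L ≃+* L)
  have h1 : ∀ φ : E →+* L, j.comp ((g : L →+* L).comp φ) = (σ : ℂ →+* ℂ).comp (j.comp φ) := by
    intro φ
    ext x
    exact (hσ (φ x)).symm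
  rcases hε.stable σ with h2 | h2
  · left
    intro φ
    rw [h1, h2]
  · right
    intro φ
    rw [h1, h2]

theorem exists_conj : ∃ c : L ≃ₐ[ℚ] L, ∀ φ : E →+* L,
    j.comp ((c : L →+* L).comp φ) = ComplexEmbedding.conjugate (j.comp φ) := by
  obtain ⟨c, hc⟩ := Pool.Agent.H977R3.CM.exists_gal j (starRingAut : ℂ ≃+* ℂ)
  refine ⟨c, fun φ => ?_⟩
  ext x
  rw [ComplexEmbedding.conjugate_coe_eq]
  exact (hc (φ x)).symm

theorem index_kerSub {ε : (E →+* ℂ) → ℤ} (hε : IsSignChar ε) (φ₀ : E →+* L) :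
    (kerSub j (Submodule.span ℚ {fun φ : E →+* ℂ => (ε φ : ℚ)})).index = 2 := by
  obtain ⟨c, hc⟩ := exists_conj (E := E) j
  have hne : ∀ φ, ε φ ≠ - ε φ := by
    intro φ h
    rcases hε.val φ with h1 | h1 <;> omega
  rw [Subgroup.index_eq_two_iff_exists_notMem_and]
  refine ⟨c, ?_, fun g => ?_⟩
  · rw [mem_kerSub_iff]
    intro h
    have h1 := h φ₀
    rw [hc, hε.odd] at h1
    exact hne _ h1.symm
  · rw [mem_kerSub_iff, mem_kerSub_iff]
    rcases signChar_cases j hε g with h | h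
    · exact Or.inr h
    · left
      intro φ
      have h1 : j.comp (((g * c : L ≃ₐ[ℚ] L) : L →+* L).comp φ) =
          j.comp ((g : L →+* L).comp ((c : L →+* L).comp φ)) := rfl
      rw [h1, h, hc, hε.odd, neg_neg]

theorem conj_not_mem {ε : (E →+* ℂ) → ℤ} (hε : IsSignChar ε) (φ₀ : E →+* L) {c : L ≃ₐ[ℚ] L}
    (hc : ∀ φ : E →+* L, j.comp ((c : L →+* L).comp φ) = ComplexEmbedding.conjugate (j.comp φ)) :
    c ∉ kerSub j (Submodule.span ℚ {fun φ : E →+* ℂ => (ε φ : ℚ)}) := by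
  rw [mem_kerSub_iff]
  intro h
  have h1 := h φ₀
  rw [hc, hε.odd] at h1
  rcases hε.val (j.comp φ₀) with h2 | h2 <;> omega

/-- The quadratic field of a one-dimensional space, inside `L`. -/
noncomputable def fldL (S : Submodule ℚ ((E →+* ℂ) → ℚ)) : IntermediateField ℚ L :=
  IntermediateField.fixedField (kerSub j S)

theorem finrank_fldL {ε : (E →+* ℂ) → ℤ} (hε : IsSignChar ε) (φ₀ : E →+* L) :
    finrank ℚ (fldL j (Submodule.span ℚ {fun φ : E →+* ℂ => (ε φ : ℚ)})) = 2 := by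
  set N := kerSub j (Submodule.span ℚ {fun φ : E →+* ℂ => (ε φ : ℚ)}) with hN
  have h1 : finrank (IntermediateField.fixedField N) L = Nat.card N :=
    IntermediateField.finrank_fixedField_eq_card N
  have h2 : finrank ℚ (IntermediateField.fixedField N) *
      finrank (IntermediateField.fixedField N) L = finrank ℚ L :=
    finrank_mul_finrank _ _ _
  rw [h1, ← IsGalois.card_aut_eq_finrank ℚ L, ← N.index_mul_card] at h2
  have h3 := Nat.eq_of_mul_eq_mul_right Nat.card_pos h2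
  rw [index_kerSub j hε φ₀] at h3
  exact h3

/-- The embedding as an algebra homomorphism. -/
noncomputable def toAlg (φ₀ : E →+* L) : E →ₐ[ℚ] L := RingHom.toRatAlgHom φ₀

theorem fldL_le {ε : (E →+* ℂ) → ℤ} (hε : IsSignChar ε) (φ₀ : E →+* L) :
    fldL j (Submodule.span ℚ {fun φ : E →+* ℂ => (ε φ : ℚ)}) ≤ (toAlg φ₀).fieldRange := by
  rw [fldL, ← IsGalois.fixedField_fixingSubgroup (toAlg φ₀).fieldRange]
  refine IntermediateField.fixedField_antitone ?_
  intro g hg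
  rw [IntermediateField.mem_fixingSubgroup_iff] at hg
  rw [mem_kerSub_iff]
  rcases signChar_cases j hε g with h | h
  · exact h
  · exfalso
    have h1 := h φ₀
    have h2 : (g : L →+* L).comp φ₀ = φ₀ := by
      ext x
      exact hg (φ₀ x) ⟨x, rfl⟩
    rw [h2] at h1
    rcases hε.val (j.comp φ₀) with h3 | h3 <;> omega

/-- The quadratic field of a one-dimensional space. -/
noncomputable def fldE (φ₀ : E →+* L) (S : Submodule ℚ ((E →+* ℂ) → ℚ)) : IntermediateField ℚ E :=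
  IntermediateField.comap (toAlg φ₀) (fldL j S)

theorem map_fldE {ε : (E →+* ℂ) → ℤ} (hε : IsSignChar ε) (φ₀ : E →+* L) :
    (fldE j φ₀ (Submodule.span ℚ {fun φ : E →+* ℂ => (ε φ : ℚ)})).map (toAlg φ₀) =
      fldL j (Submodule.span ℚ {fun φ : E →+* ℂ => (ε φ : ℚ)}) := by
  apply le_antisymm
  · rintro y ⟨x, hx, rfl⟩
    exact hx
  · intro y hy
    obtain ⟨x, rfl⟩ := fldL_le j hε φ₀ hy
    exact ⟨x, hy, rfl⟩

theorem finrank_fldE {ε : (E →+* ℂ) → ℤ} (hε : IsSignChar ε) (φ₀ : E →+* L) :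
    finrank ℚ (fldE j φ₀ (Submodule.span ℚ {fun φ : E →+* ℂ => (ε φ : ℚ)})) = 2 := by
  rw [← finrank_fldL j hε φ₀, ← map_fldE j hε φ₀]
  exact LinearEquiv.finrank_eq (IntermediateField.equivMap _ (toAlg φ₀)).toLinearEquiv

theorem not_real_fldE {ε : (E →+* ℂ) → ℤ} (hε : IsSignChar ε) (φ₀ : E →+* L) :
    ¬ IsTotallyReal (fldE j φ₀ (Submodule.span ℚ {fun φ : E →+* ℂ => (ε φ : ℚ)})) := by
  intro hreal
  obtain ⟨c, hc⟩ := exists_conj (E := E) j
  apply conj_not_mem j hε φ₀ hc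
  rw [← IntermediateField.fixingSubgroup_fixedField (kerSub j _),
    IntermediateField.mem_fixingSubgroup_iff]
  intro y hy
  obtain ⟨x, rfl⟩ := fldL_le j hε φ₀ hy
  have hx : x ∈ fldE j φ₀ (Submodule.span ℚ {fun φ : E →+* ℂ => (ε φ : ℚ)}) := hy
  have h2 : ComplexEmbedding.IsReal ((j.comp φ₀).comp
      (algebraMap (fldE j φ₀ (Submodule.span ℚ {fun φ : E →+* ℂ => (ε φ : ℚ)})) E)) :=
    IsTotallyReal.complexEmbedding_isReal _
  have h3 := RingHom.congr_fun (ComplexEmbedding.isReal_iff.1 h2) ⟨x, hx⟩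
  have h4 := RingHom.congr_fun (hc φ₀) x
  rw [ComplexEmbedding.conjugate_coe_eq] at h3 h4
  apply j.injective
  exact h4.trans h3

theorem fld_inj {ε δ : (E →+* ℂ) → ℤ} (hε : IsSignChar ε) (hδ : IsSignChar δ) (φ₀ : E →+* L)
    (hj : ∀ ψ : E →+* ℂ, ∃ φ : E →+* L, j.comp φ = ψ)
    (h : fldE j φ₀ (Submodule.span ℚ {fun φ : E →+* ℂ => (ε φ : ℚ)}) =
      fldE j φ₀ (Submodule.span ℚ {fun φ : E →+* ℂ => (δ φ : ℚ)})) :
    Submodule.span ℚ {fun φ : E →+* ℂ => (ε φ : ℚ)} =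
      Submodule.span ℚ {fun φ : E →+* ℂ => (δ φ : ℚ)} := by
  have h1 : kerSub j (Submodule.span ℚ {fun φ : E →+* ℂ => (ε φ : ℚ)}) =
      kerSub j (Submodule.span ℚ {fun φ : E →+* ℂ => (δ φ : ℚ)}) := by
    rw [← IntermediateField.fixingSubgroup_fixedField (kerSub j (Submodule.span ℚ {fun φ :
        E →+* ℂ => (ε φ : ℚ)})), ← IntermediateField.fixingSubgroup_fixedField (kerSub j
        (Submodule.span ℚ {fun φ : E →+* ℂ => (δ φ : ℚ)}))]
    have h2 := map_fldE j hε φ₀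
    rw [h, map_fldE j hδ φ₀] at h2
    exact congrArg IntermediateField.fixingSubgroup h2.symm
  have key : ∀ ψ, ε ψ * ε (j.comp φ₀) = δ ψ * δ (j.comp φ₀) := by
    intro ψ
    obtain ⟨φ, rfl⟩ := hj ψ
    obtain ⟨g, hg⟩ : ∃ g : L ≃ₐ[ℚ] L, (g : L →+* L).comp φ₀ = φ := by
      let _ := φ₀.toAlgebra
      have : IsScalarTower ℚ E L := inferInstance
      let χ : E →ₐ[ℚ] L := RingHom.equivRatAlgHom E L φ
      let f : L →ₐ[ℚ] L := χ.liftNormal L
      refine ⟨AlgEquiv.ofBijective f (AlgHom.bijective f), ?_⟩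
      ext x
      exact χ.liftNormal_commutes L x
    have hsq : ∀ {η : (E →+* ℂ) → ℤ}, IsSignChar η → ∀ ψ, η ψ * η ψ = 1 := by
      intro η hη ψ
      rcases hη.val ψ with h5 | h5 <;> rw [h5] <;> decide
    have hne : ∀ {η : (E →+* ℂ) → ℤ}, IsSignChar η → ∀ ψ, η ψ ≠ - η ψ := by
      intro η hη ψ h5
      rcases hη.val ψ with h6 | h6 <;> omega
    by_cases hmem : g ∈ kerSub j (Submodule.span ℚ {fun φ : E →+* ℂ => (ε φ : ℚ)})
    · have hmem' := hmem
      rw [h1] at hmem'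
      have h3 := (mem_kerSub_iff j g).1 hmem φ₀
      have h4 := (mem_kerSub_iff j g).1 hmem' φ₀
      rw [hg] at h3 h4
      rw [h3, h4, hsq hε, hsq hδ]
    · have hmem' := hmem
      rw [h1] at hmem'
      have h3 : ε (j.comp φ) = - ε (j.comp φ₀) := by
        rcases signChar_cases j hε g with h5 | h5
        · exact absurd ((mem_kerSub_iff j g).2 h5) hmem
        · rw [← hg]
          exact h5 φ₀
      have h4 : δ (j.comp φ) = - δ (j.comp φ₀) := by
        rcases signChar_cases j hδ g with h5 | h5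
        · exact absurd ((mem_kerSub_iff j g).2 h5) hmem'
        · rw [← hg]
          exact h5 φ₀
      rw [h3, h4, neg_mul, neg_mul, hsq hε, hsq hδ]
  have hsq : ∀ {η : (E →+* ℂ) → ℤ}, IsSignChar η → ∀ ψ, η ψ * η ψ = 1 := by
    intro η hη ψ
    rcases hη.val ψ with h5 | h5 <;> rw [h5] <;> decide
  apply le_antisymm
  · rw [Submodule.span_singleton_le_iff_mem, Submodule.mem_span_singleton]
    refine ⟨((δ (j.comp φ₀) * ε (j.comp φ₀) : ℤ) : ℚ), ?_⟩
    funext ψ
    rw [Pi.smul_apply, smul_eq_mul]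
    have h5 : δ (j.comp φ₀) * ε (j.comp φ₀) * δ ψ = ε ψ := by
      calc δ (j.comp φ₀) * ε (j.comp φ₀) * δ ψ = (δ ψ * δ (j.comp φ₀)) * ε (j.comp φ₀) := by ring
        _ = ε ψ * (ε (j.comp φ₀) * ε (j.comp φ₀)) := by rw [← key]; ring
        _ = ε ψ := by rw [hsq hε, mul_one]
    exact_mod_cast h5
  · rw [Submodule.span_singleton_le_iff_mem, Submodule.mem_span_singleton]
    refine ⟨((ε (j.comp φ₀) * δ (j.comp φ₀) : ℤ) : ℚ), ?_⟩
    funext ψ
    rw [Pi.smul_apply, smul_eq_mul]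
    have h5 : ε (j.comp φ₀) * δ (j.comp φ₀) * ε ψ = δ ψ := by
      calc ε (j.comp φ₀) * δ (j.comp φ₀) * ε ψ = (ε ψ * ε (j.comp φ₀)) * δ (j.comp φ₀) := by ring
        _ = δ ψ * (δ (j.comp φ₀) * δ (j.comp φ₀)) := by rw [key]; ring
        _ = δ ψ := by rw [hsq hδ, mul_one]
    exact_mod_cast h5

end

/-- The number of one-dimensional Galois-stable spaces of odd functions is at most the number of
imaginary quadratic subfields. -/
theorem numSpaces_one_le (E : Type*) [Field E] [NumberField E] [IsCMField E] :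
    numSpaces E 1 ≤ numImagQuadratic E := by
  classical
  obtain ⟨L, _, _, j, hj⟩ := exists_galois (fun _ : Unit => E)
  obtain ⟨ψ₀⟩ : Nonempty (E →+* ℂ) := inferInstance
  obtain ⟨φ₀, -⟩ := hj () ψ₀
  have hfin : Finite (IntermediateField ℚ E) :=
    Field.finite_intermediateField_of_exists_primitive_element ℚ E
      (Field.exists_primitive_element ℚ E)
  unfold numSpaces numImagQuadratic
  refine Set.ncard_le_ncard_of_injOn (fldE j φ₀) ?_ ?_ (Set.toFinite _)
  · rintro S ⟨hS, h1⟩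
    obtain ⟨ε, hε, rfl⟩ := exists_signChar hS h1
    exact ⟨finrank_fldE j hε φ₀, not_real_fldE j hε φ₀⟩
  · rintro S ⟨hS, h1⟩ S' ⟨hS', h1'⟩ h
    obtain ⟨ε, hε, rfl⟩ := exists_signChar hS h1
    obtain ⟨δ, hδ, rfl⟩ := exists_signChar hS' h1'
    exact fld_inj j hε hδ φ₀ (hj ()) h

end Pool.Agent.TH170.MF
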