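import Mathlib
import Pool.Agent.TH170.MF.Quad2
import Pool.Agent.TH170.MF.Num2
import Pool.Agent.TH170.MF.Examples

/-!
# The number of degenerate CM types of a multiplicity free CM field
-/

set_option linter.unusedSectionVars false
set_option linter.unusedVariables false

namespace Pool.Agent.TH170.MF

open NumberField Module Finset Pool.Agent.H204R3.CM Pool.Agent.TH170.CM

section

variable (E : Type*) [Field E] [NumberField E] [IsCMField E]

/-- The number of degenerate CM types in the multiplicity free case. -/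
theorem ncard_degenerate_mf (hE : MultiplicityFree E) {g : ℕ} (hg : finrank ℚ E = 2 * g) :
    ((degenerateTypes E).ncard : ℝ) ≤ 2 ^ g *
      ((if Even g then (numImagQuadratic E : ℝ) / √g else 0) + 2 * (numSpaces E 2 + 1) / g +
        3 * numSpaces E 3 / (g * √g)) := by
  classical
  have hfin := finite_minimalSpaces E hE
  have hg0 : 0 < g := by
    have := Module.finrank_pos (R := ℚ) (M := E)
    omega
  have h1 : degenerateTypes E ⊆ ⋃ S ∈ hfin.toFinset, typesOrthogonalTo S := by
    rintro Φ ⟨hΦ, hd⟩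
    obtain ⟨S, hS, hmem⟩ := exists_minimal_of_degenerate hΦ hd
    exact Set.mem_biUnion (hfin.mem_toFinset.2 hS) hmem
  have h2 : (degenerateTypes E).ncard ≤ ∑ S ∈ hfin.toFinset, (typesOrthogonalTo S).ncard := by
    refine (Set.ncard_le_ncard h1 (Set.toFinite _)).trans ?_
    exact Finset.set_ncard_biUnion_le _ _
  have h3 : ((degenerateTypes E).ncard : ℝ) ≤
      2 ^ g * ∑ S ∈ hfin.toFinset, ((typesOrthogonalTo S).ncard : ℝ) / 2 ^ g := by
    rw [mul_sum]
    have h4 : ∀ S ∈ hfin.toFinset, (2 : ℝ) ^ g * (((typesOrthogonalTo S).ncard : ℝ) / 2 ^ g) =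
        ((typesOrthogonalTo S).ncard : ℝ) := fun S _ => by field_simp
    rw [sum_congr rfl h4, ← Nat.cast_sum]
    exact_mod_cast h2
  refine h3.trans (mul_le_mul_of_nonneg_left ?_ (by positivity))
  have h4 := sum_counts_le hfin.toFinset (fun S => finrank ℚ S)
    (fun S hS => finrank_pos_of_minimal E (hfin.mem_toFinset.1 hS)) hg0
    (sum_finrank_minimal E hE hg hfin.toFinset (fun S hS => hfin.mem_toFinset.1 hS))
    (fun S => ((typesOrthogonalTo S).ncard : ℝ) / 2 ^ g)
    (fun S hS => by
      have hS' := hfin.mem_toFinset.1 hS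
      rw [div_le_iff₀ (by positivity), mul_comm]
      exact ncard_typesOrthogonalTo S hS'.2.1 hS'.2.2.1 hS'.1 hg)
    (fun hodd S hS hd => by
      have hS' := hfin.mem_toFinset.1 hS
      rw [typesOrthogonalTo_eq_empty hS' hd hg hodd, Set.ncard_empty]
      simp)
  have h5 : ∀ d, ((hfin.toFinset.filter (fun S : Submodule ℚ ((E →+* ℂ) → ℚ) =>
      finrank ℚ S = d)).card : ℝ) = numSpaces E d := by
    intro d
    have h3 : {S ∈ minimalSpaces E | finrank ℚ S = d} =
        ((hfin.toFinset.filter (fun S : Submodule ℚ ((E →+* ℂ) → ℚ) => finrank ℚ S = d) :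
          Finset (Submodule ℚ ((E →+* ℂ) → ℚ))) : Set (Submodule ℚ ((E →+* ℂ) → ℚ))) := by
      ext S
      simp only [coe_filter, Set.Finite.mem_toFinset, Set.mem_ofPred_eq]
    unfold numSpaces
    rw [h3, Set.ncard_coe_finset]
  rw [h5, h5, h5] at h4
  refine h4.trans ?_
  have h6 : (numSpaces E 1 : ℝ) ≤ numImagQuadratic E := by
    exact_mod_cast numSpaces_one_le E
  have h7 : (if Even g then (numSpaces E 1 : ℝ) / √g else 0) ≤
      (if Even g then (numImagQuadratic E : ℝ) / √g else 0) := by
    split_ifs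
    · exact div_le_div_of_nonneg_right h6 (Real.sqrt_nonneg _)
    · exact le_rfl
  linarith

end

end Pool.Agent.TH170.MF
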